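import Pool.Agent.H87.D3.Targets2
import Pool.Agent.H35.SN.POH

/-! MP_2697e3_an, dimension three: elementary facts. -/

namespace Pool.Agent.H17.D3

open MeasureTheory Metric Set Filter Topology Pool.Agent.H87.SN Pool.Agent.H87.SH Pool.Agent.H87.AX
  Pool.Agent.H87.D3
open scoped ContDiff RealInnerProductSpace ENNReal

theorem rho_sq (x : V) : rho x ^ 2 = x 0 ^ 2 + x 1 ^ 2 := by
  unfold rho
  rw [Real.sq_sqrt (by positivity)]

theorem norm_sq3 (x : V) : ‖x‖ ^ 2 = x 0 ^ 2 + x 1 ^ 2 + x 2 ^ 2 := by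
  rw [Pool.Agent.H35.SN.norm_sq_sum]
  exact Fin.sum_univ_three _

theorem rho_le_norm (x : V) : rho x ≤ ‖x‖ := by
  have h1 := rho_sq x
  have h2 := norm_sq3 x
  have h3 : 0 ≤ rho x := Pool.Agent.H35.SN.rho_nonneg x
  refine le_of_sq_le_sq ?_ (norm_nonneg x)
  nlinarith [sq_nonneg (x 2)]

theorem rho_sub_axis (x : V) (D : ℝ) : rho (x - D • bv 2) = rho x := by
  have h0 : (x - D • bv 2 : V) 0 = x 0 := by
    simp [bv]
  have h1 : (x - D • bv 2 : V) 1 = x 1 := by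
    simp [bv]
  unfold rho
  rw [h0, h1]

theorem nzs_eq {F : Type*} [NormedAddCommGroup F] [NormedSpace ℝ F] (L : V →L[ℝ] F) :
    nzs L = ‖L (bv 2)‖ ^ 2 := by
  unfold nzs
  exact Fin.sum_univ_one _

theorem nzs_le_nsq {m : ℕ} (L : V →L[ℝ] E m) : nzs L ≤ nsq L := by
  rw [nzs_eq]
  unfold nsq
  exact Finset.single_le_sum (f := fun i : Fin (1 + 2) => ‖L (bv i)‖ ^ 2)
    (fun _ _ => sq_nonneg _) (Finset.mem_univ 2)

theorem norm_Pm (x : V) : ‖Pm 1 x‖ = rho x := by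
  have h1 : ‖Pm 1 x‖ ^ 2 = rho x ^ 2 := by
    rw [norm_sq3, rho_sq]
    simp [Pm]
  exact (pow_left_inj₀ (norm_nonneg _) (Pool.Agent.H35.SN.rho_nonneg x) two_ne_zero).1 h1

theorem norm_Jm (x : V) : ‖Jm 1 x‖ = rho x := by
  have h1 : ‖Jm 1 x‖ ^ 2 = rho x ^ 2 := by
    rw [norm_sq3, rho_sq]
    simp [Jm]
    ring
  exact (pow_left_inj₀ (norm_nonneg _) (Pool.Agent.H35.SN.rho_nonneg x) two_ne_zero).1 h1

/-- integrability of the components -/
theorem int_nzs {m : ℕ} {G : V → V →L[ℝ] E m}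
    (hG : MemLp G 2 (volume.restrict (ball (0 : V) 2))) :
    IntegrableOn (fun x => nzs (G x)) (ball 0 2) := by
  refine Pool.Agent.H35.SN.int_of_le hG _ 1 ?_ ?_
  · exact Pool.Agent.H35.SN.cont_nzs.comp_aestronglyMeasurable hG.1
  · intro x _
    rw [abs_of_nonneg (Pool.Agent.H35.SN.nzs_nonneg _), one_mul]
    exact nzs_le_nsq _

theorem int_app {m : ℕ} {G : V → V →L[ℝ] E m}
    (hG : MemLp G 2 (volume.restrict (ball (0 : V) 2))) (f : V →L[ℝ] V)
    (hf : ∀ x ∈ ball (0 : V) 2, ‖f x‖ ≤ 2) :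
    IntegrableOn (fun x => ‖G x (f x)‖ ^ 2) (ball 0 2) := by
  have h1 : Integrable (fun x => ‖G x‖ ^ 2) (volume.restrict (ball (0 : V) 2)) :=
    hG.integrable_norm_pow (by norm_num)
  refine Integrable.mono' (h1.const_mul 4)
    (Pool.Agent.H35.SN.app_meas hG.1 _ f.continuous) ?_
  rw [ae_restrict_iff' measurableSet_ball]
  refine Eventually.of_forall fun x hx => ?_
  rw [Real.norm_eq_abs, abs_of_nonneg (by positivity)]
  have h2 : ‖G x (f x)‖ ≤ ‖G x‖ * 2 := ((G x).le_opNorm _).trans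
    (mul_le_mul_of_nonneg_left (hf x hx) (norm_nonneg _))
  calc ‖G x (f x)‖ ^ 2 ≤ (‖G x‖ * 2) ^ 2 := pow_le_pow_left₀ (norm_nonneg _) h2 2
    _ = 4 * ‖G x‖ ^ 2 := by ring

theorem rho_lt_two {x : V} (hx : x ∈ ball (0 : V) 2) : rho x ≤ 2 := by
  rw [mem_ball_zero_iff] at hx
  exact (rho_le_norm x).trans hx.le

theorem int_Pm {m : ℕ} {G : V → V →L[ℝ] E m}
    (hG : MemLp G 2 (volume.restrict (ball (0 : V) 2))) :
    IntegrableOn (fun x => ‖G x (Pm 1 x)‖ ^ 2) (ball 0 2) :=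
  int_app hG (Pm 1) fun x hx => by
    rw [norm_Pm]
    exact rho_lt_two hx

theorem int_Jm {m : ℕ} {G : V → V →L[ℝ] E m}
    (hG : MemLp G 2 (volume.restrict (ball (0 : V) 2))) :
    IntegrableOn (fun x => ‖G x (Jm 1 x)‖ ^ 2) (ball 0 2) :=
  int_app hG (Jm 1) fun x hx => by
    rw [norm_Jm]
    exact rho_lt_two hx

theorem meas_rho : Measurable (fun x : V => rho x) := Pool.Agent.H35.SN.cont_rho.measurable

end Pool.Agent.H17.D3
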