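import Pool.Agent.H17.D3.GSNb

/-!
MP_ee74d2_an, dimension 3: the node data of a step.
-/

set_option autoImplicit false

namespace Pool.Agent.H17.D3

open MeasureTheory Set Pool.Agent.H83.G Pool.Agent.H81.D3
open Pool.Agent.H82.G4 (aw uk)
open Pool.Agent.H22.G4 (nv Ind)
open scoped ENNReal NNReal RealInnerProductSpace

theorem pigeon {α γ : Type} [DecidableEq α] (s : Finset α) (t : Finset γ) (c : γ → Finset α)
    (h : s ⊆ t.biUnion c) (hs : s.Nonempty) : ∃ b ∈ t, s.card ≤ t.card * (c b).card := by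
  have ht : t.Nonempty := by
    obtain ⟨x, hx⟩ := hs
    obtain ⟨b, hb, -⟩ := Finset.mem_biUnion.1 (h hx)
    exact ⟨b, hb⟩
  obtain ⟨b, hb, hmax⟩ := Finset.exists_max_image t (fun b => (c b).card) ht
  refine ⟨b, hb, (Finset.card_le_card h).trans (Finset.card_biUnion_le.trans ?_)⟩
  have h1 := Finset.sum_le_card_nsmul t (fun b => (c b).card) _ hmax
  simpa using h1

/-- the choice of the circles -/
theorem exists_V {N₁ : ℕ} {β : E 2 → ℂ} {h : ℝ} {w K n : ℕ} (G : Z 2 → ℂ) :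
    ∃ V : Pq → Fin n → Z 2, (∀ p j, ‖V p j‖ = 1) ∧
      ∀ p, (∃ V' : Fin n → Z 2, Nar β N₁ K h n (Gc β w G p.2.1) p.2.2 V') →
        Nar β N₁ K h n (Gc β w G p.2.1) p.2.2 (V p) := by
  classical
  have h1 : ‖(((1 : ℝ), (0 : E 2), (0 : ℝ)) : Z 2)‖ = 1 := by
    rw [Prod.norm_def, Prod.norm_def]
    simp
  have h2 : ∀ p : Pq, ∃ V : Fin n → Z 2, (∀ j, ‖V j‖ = 1) ∧
      ((∃ V' : Fin n → Z 2, Nar β N₁ K h n (Gc β w G p.2.1) p.2.2 V') →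
        Nar β N₁ K h n (Gc β w G p.2.1) p.2.2 V) := by
    intro p
    by_cases hp : ∃ V' : Fin n → Z 2, Nar β N₁ K h n (Gc β w G p.2.1) p.2.2 V'
    · obtain ⟨V', hV'⟩ := hp
      exact ⟨V', hV'.1, fun _ => hV'⟩
    · exact ⟨fun _ => ((1 : ℝ), (0 : E 2), (0 : ℝ)), fun _ => h1, fun h => absurd h hp⟩
  choose V hV1 hV2 using h2
  exact ⟨V, hV1, hV2⟩

/-- the sum over the nodes -/
theorem rd_sum {Cp Cn c0 δ : ℝ} (hPT : CntP Cp) (hCp : 1 ≤ Cp) {β : E 2 → ℂ} {G : Z 2 → ℂ}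
    {e H₀ D H : ℝ} {X : Finset (Z 2)} {w K : ℕ} {P : Finset Pq} {Q : Finset (Z 2 × Pq)}
    (hS : St β G e H₀ D X w H P Q) (hX : Sep X) {Q₁ : Finset (Z 2 × Pq)} (hQ : Q₁ ⊆ Q)
    {Y : Tq → Finset (Z 2)} (hY : ∀ i z, z ∈ Y i → (i.1, i.2, z) ∈ P)
    (hQY : ∀ q ∈ Q₁, q.2.2.2 ∈ Y (q.2.1, q.2.2.1)) {Wf : Tq → Finset (Pk 2)} {a k p : ℝ}
    (ha : 0 < a) (hk : 0 < k)
    (hrd : ∀ i ∈ Ti P, ((Y i).card : ℝ) * H ^ p ≤ Cn * (K : ℝ) ^ (c0 * δ) * k ^ (p / 2 - 1) *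
      a ^ p * (Wf i).card * (K : ℝ) ^ 4) {D' : ℝ}
    (hD' : Cp * D ^ 4 * (Cn * (K : ℝ) ^ (c0 * δ)) ≤ D') :
    (Q₁.card : ℝ) * H ^ p ≤ D' * k ^ (p / 2 - 1) * a ^ p *
      (∑ i ∈ Ti P, ((Wf i).card : ℝ)) * ((w : ℝ) * K) ^ 4 := by
  classical
  have hH : 0 < H := hS.H0
  have hD1 := hS.D1
  have h1 : (Q₁.card : ℝ) ≤ ∑ i ∈ Ti P, ((Y i).card : ℝ) * (Cp * D ^ 4 * (w : ℝ) ^ 4) := by
    rw [Finset.card_eq_sum_card_fiberwise (f := fun q : Z 2 × Pq => (q.2.1, q.2.2.1))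
      (t := Ti P) (fun q hq => by
        unfold Ti
        exact Finset.mem_coe.2 (Finset.mem_image_of_mem _ (hS.rel q (hQ hq)).2.1))]
    push_cast
    refine Finset.sum_le_sum fun i _ => ?_
    have hsub : (Y i).image (fun z => ((i.1, i.2, z) : Pq)) ⊆ P := by
      intro q hq
      obtain ⟨z, hz, rfl⟩ := Finset.mem_image.1 hq
      exact hY i z hz
    refine (inc_le hPT hS hX hsub (Q' := Q₁.filter fun q => (q.2.1, q.2.2.1) = i) ?_).trans ?_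
    · intro q hq
      obtain ⟨hq1, hq2⟩ := Finset.mem_filter.1 hq
      refine ⟨hQ hq1, Finset.mem_image.2 ⟨q.2.2.2, ?_, ?_⟩⟩
      · have h2 := hQY q hq1
        rw [hq2] at h2
        exact h2
      · rw [← hq2]
    · refine mul_le_mul_of_nonneg_right ?_ (by positivity)
      exact_mod_cast Finset.card_image_le
  have hkp : 0 < k ^ (p / 2 - 1) := Real.rpow_pos_of_pos hk _
  have hap : 0 < a ^ p := Real.rpow_pos_of_pos ha _
  have hHp : 0 < H ^ p := Real.rpow_pos_of_pos hH _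
  have hsum : (0 : ℝ) ≤ ∑ i ∈ Ti P, ((Wf i).card : ℝ) := by positivity
  calc (Q₁.card : ℝ) * H ^ p
      ≤ (∑ i ∈ Ti P, ((Y i).card : ℝ) * (Cp * D ^ 4 * (w : ℝ) ^ 4)) * H ^ p :=
        mul_le_mul_of_nonneg_right h1 hHp.le
    _ = ∑ i ∈ Ti P, (Cp * D ^ 4 * (w : ℝ) ^ 4) * (((Y i).card : ℝ) * H ^ p) := by
        rw [Finset.sum_mul]
        exact Finset.sum_congr rfl fun i _ => by ring
    _ ≤ ∑ i ∈ Ti P, (Cp * D ^ 4 * (w : ℝ) ^ 4) * (Cn * (K : ℝ) ^ (c0 * δ) * k ^ (p / 2 - 1) *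
          a ^ p * (Wf i).card * (K : ℝ) ^ 4) :=
        Finset.sum_le_sum fun i hi => mul_le_mul_of_nonneg_left (hrd i hi) (by positivity)
    _ = (Cp * D ^ 4 * (Cn * (K : ℝ) ^ (c0 * δ))) * (k ^ (p / 2 - 1) * a ^ p *
          (∑ i ∈ Ti P, ((Wf i).card : ℝ)) * ((w : ℝ) * K) ^ 4) := by
        rw [← Finset.mul_sum]
        have h3 : ∑ i ∈ Ti P, (Cn * (K : ℝ) ^ (c0 * δ) * k ^ (p / 2 - 1) *
          a ^ p * (Wf i).card * (K : ℝ) ^ 4) = Cn * (K : ℝ) ^ (c0 * δ) * k ^ (p / 2 - 1) *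
          a ^ p * (∑ i ∈ Ti P, ((Wf i).card : ℝ)) * (K : ℝ) ^ 4 := by
          rw [Finset.mul_sum, Finset.sum_mul]
        rw [h3]
        ring
    _ ≤ D' * (k ^ (p / 2 - 1) * a ^ p *
          (∑ i ∈ Ti P, ((Wf i).card : ℝ)) * ((w : ℝ) * K) ^ 4) :=
        mul_le_mul_of_nonneg_right hD' (by positivity)
    _ = D' * k ^ (p / 2 - 1) * a ^ p *
      (∑ i ∈ Ti P, ((Wf i).card : ℝ)) * ((w : ℝ) * K) ^ 4 := by ring

theorem pf_GSN (hNST : T_NST) (hRSE : T_RSE) (hGSA : T_GSA) (hPTS : T_PTS) : T_GSN := by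
  classical
  obtain ⟨c0, hc0, hNST⟩ := hNST
  obtain ⟨Cp, hCp, hPT, -, -⟩ := hPTS
  refine ⟨c0 + 6, by linarith, ?_⟩
  intro L N₁ β δ M hL hβ hδ hδ1 hM
  obtain ⟨Cr, hCr, hRse⟩ := hRSE L β hβ
  obtain ⟨Ca, hCa, hGsa⟩ := hGSA L β hL hβ
  obtain ⟨N₀, hN₀⟩ := hNST L N₁ β δ (M + 1) hL hβ hδ hδ1 (by linarith)
  refine ⟨N₀, fun N hN => ?_⟩
  obtain ⟨Cn, hCn, hNst⟩ := hN₀ N hN
  have hR : RseP L β Cr := fun κ R A s η G h1 h2 h3 h4 h5 h6 h7 =>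
    (hRse κ R A s η G h1 h2 h3 h4 h5 h6 h7).1
  have hN : NstP L N₁ N β δ (M + 1) c0 Cn := hNst
  set C : ℝ := 2 * (Cn * (Cp * Ca) * Cr) with hCdef
  have m1 : 1 ≤ Cp * Ca := one_le_mul_of_one_le_of_one_le hCp hCa
  have m2 : 1 ≤ Cn * (Cp * Ca) := one_le_mul_of_one_le_of_one_le hCn m1
  have m3 : Cn * (Cp * Ca) ≤ Cn * (Cp * Ca) * Cr := le_mul_of_one_le_right (by linarith) hCr
  have m4 : Cp * Ca ≤ Cn * (Cp * Ca) := le_mul_of_one_le_left (by linarith) hCn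
  have m5 : Cn ≤ Cn * (Cp * Ca) := le_mul_of_one_le_right (by linarith) m1
  have m6 : Cr ≤ Cn * (Cp * Ca) * Cr := le_mul_of_one_le_left (by linarith) m2
  have m7 : Cp * Cn ≤ Cn * (Cp * Ca) := by
    have h1 : Cp * Cn ≤ Cp * Cn * Ca := le_mul_of_one_le_right (by nlinarith) hCa
    linarith
  have hC1 : 1 ≤ C := by rw [hCdef]; linarith
  refine ⟨C, hC1, ?_⟩
  intro cb₀ C₁ ε δ₁ Cb R A H₀ D H G X w K n P Q hPar hH₀ hcls hX hE hS
  obtain ⟨hK1, hCK⟩ := par_facts hPar hδ hδ1 hC1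
  have hK0 : (0 : ℝ) < K := by linarith
  have hD1 : 1 ≤ D := hS.D1
  have hH : 0 < H := hS.H0
  have hDD : D ≤ D ^ (c0 + 6) := by
    calc D = D ^ (1 : ℝ) := (Real.rpow_one D).symm
      _ ≤ D ^ (c0 + 6) := Real.rpow_le_rpow_of_exponent_le hD1 (by linarith)
  have hn1 : (1 : ℝ) ≤ n := by exact_mod_cast hPar.n1
  obtain ⟨V, hV1, hV2⟩ := exists_V (N₁ := N₁) (β := β) (h := (K : ℝ) ^ (-100 : ℝ) * H) (w := w)
    (K := K) (n := n) G
  set nar : Pq → Prop := fun p => ∃ V' : Fin n → Z 2,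
    Nar β N₁ K ((K : ℝ) ^ (-100 : ℝ) * H) n (Gc β w G p.2.1) p.2.2 V' with hnar
  set Pn := P.filter fun p => nar p with hPn
  have hPnP : Pn ⊆ P := Finset.filter_subset _ _
  have hVn : ∀ p ∈ Pn, Nar β N₁ K ((K : ℝ) ^ (-100 : ℝ) * H) n (Gc β w G p.2.1) p.2.2 (V p) :=
    fun p hp => hV2 p (Finset.mem_filter.1 hp).2
  have hnode := fun i : Tq => node hPar hN hR hK1 (by rw [hCdef]; linarith)
    (by rw [hCdef] at hCK; linarith) hCr hcls hS hPnP hVn i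
  choose Y Wf hY using hnode
  -- the broad planks
  set Qb := Q.filter fun q => ¬ nar q.2 with hQb
  set Qn := Q.filter fun q => nar q.2 with hQn
  have hbr := broad_le hPar hPT hCp hCa hGsa hK1 (by rw [hCdef]; linarith) (by linarith) hcls hX hS
    (S := P.filter fun p => ¬ nar p) (Finset.filter_subset _ _)
    (fun p hp V' hV' => (Finset.mem_filter.1 hp).2 ⟨V', hV'⟩) (Q' := Qb)
    (fun q hq => by
      obtain ⟨h1, h2⟩ := Finset.mem_filter.1 hq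
      exact ⟨h1, Finset.mem_filter.2 ⟨(hS.rel q h1).2.1, h2⟩⟩)
  have hsplit : (Qn.card : ℝ) + Qb.card = Q.card := by
    have h1 := Finset.card_filter_add_card_filter_not (s := Q) (fun q : Z 2 × Pq => nar q.2)
    exact_mod_cast h1
  have hQ0 : (0 : ℝ) < Q.card := by
    by_contra h
    have h1 : (Q.card : ℝ) = 0 := le_antisymm (not_lt.1 h) (Nat.cast_nonneg _)
    have h2 := hS.low
    rw [h1] at h2
    simp only [zero_mul, mul_zero] at h2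
    linarith
  have hQn0 : Qn.Nonempty := by
    rw [← Finset.card_pos]
    have h1 : (0 : ℝ) < Qn.card := by linarith
    exact_mod_cast h1
  -- the popular type
  set n1 : ℕ := ⌊(K : ℝ) ^ δ⌋₊ with hn1def
  have hmemX : ∀ q ∈ Qn, q.2.2.2 ∈ Xi Pn (q.2.1, q.2.2.1) := by
    intro q hq
    obtain ⟨h1, h2⟩ := Finset.mem_filter.1 hq
    exact mem_Xi.2 (Finset.mem_filter.2 ⟨(hS.rel q h1).2.1, h2⟩)
  obtain ⟨⟨a', b'⟩, -, hpop⟩ := pigeon Qn (Finset.range n1 ×ˢ Finset.range n1)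
    (fun ab => Qn.filter fun q => q.2.2.2 ∈ Y (q.2.1, q.2.2.1) ab.1 ab.2) (by
      intro q hq
      obtain ⟨i, hi, j, hj, hz⟩ := (hY (q.2.1, q.2.2.1)).1 _ (hmemX q hq)
      exact Finset.mem_biUnion.2 ⟨(i, j), Finset.mem_product.2
        ⟨Finset.mem_range.2 hi, Finset.mem_range.2 hj⟩, Finset.mem_filter.2 ⟨hq, hz⟩⟩) hQn0
  set Q₁ := Qn.filter fun q => q.2.2.2 ∈ Y (q.2.1, q.2.2.1) a' b' with hQ₁
  have hQ₁n : Q₁ ⊆ Qn := Finset.filter_subset _ _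
  have hQ₁Q : Q₁ ⊆ Q := hQ₁n.trans (Finset.filter_subset _ _)
  have hQ₁Y : ∀ q ∈ Q₁, q.2.2.2 ∈ Y (q.2.1, q.2.2.1) a' b' := fun q hq =>
    (Finset.mem_filter.1 hq).2
  have hTi : ∀ q ∈ Q₁, (q.2.1, q.2.2.1) ∈ Ti P := by
    intro q hq
    unfold Ti
    exact Finset.mem_image_of_mem _ (hS.rel q (hQ₁Q hq)).2.1
  set a : ℝ := 2 ^ a' * ((K : ℝ) ^ (-50 : ℝ) * H) with ha
  set k : ℝ := 2 ^ b' with hk
  have hKm : 0 < (K : ℝ) ^ (-50 : ℝ) := Real.rpow_pos_of_pos hK0 _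
  have ha0 : 0 < a := by positivity
  have hk0 : 0 < k := by positivity
  set Wf' : Tq → Finset (Pk 2) := fun i => if i ∈ Ti P then Wf i a' b' else ∅ with hWf'
  have hWf1 : ∀ i, i ∈ Ti P → Wf' i = Wf i a' b' := fun i hi => if_pos hi
  have hWfW : ∀ i, ∀ W ∈ Wf' i, W ∈ Wf i a' b' := by
    intro i W hW
    by_cases hi : i ∈ Ti P
    · rw [hWf1 i hi] at hW
      exact hW
    · have h1 : Wf' i = ∅ := if_neg hi
      rw [h1] at hW
      exact absurd hW (Finset.notMem_empty W)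
  have hDCn : Cn * ((K : ℝ) ^ (c0 * δ) * n) * 2 ≤ D := by
    have h1 := Dl_facts hPar hK1 hC1 (c := 2 * Cn) (s := c0 * δ) (by rw [hCdef]; linarith)
      (by linarith) (by nlinarith)
    linarith
  refine ⟨a, k, Q₁, Wf', V, ?_⟩
  refine
    { a0 := ?_
      k1 := ?_
      sub := hQ₁Q
      pop := ?_
      emp := fun i hi => if_neg hi
      wf := ?_
      kl := ?_
      ku := ?_
      vn := hV1
      cr := ?_
      rd := ?_ }
  · have h1 : (1 : ℝ) ≤ 2 ^ a' := one_le_pow₀ (by norm_num)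
    rw [ha]
    exact le_mul_of_one_le_left (by positivity) h1
  · rw [hk]
    exact one_le_pow₀ (by norm_num)
  · have h1 : (Qn.card : ℝ) ≤ ((n1 : ℝ) * n1) * Q₁.card := by
      have h2 : (Finset.range n1 ×ˢ Finset.range n1).card = n1 * n1 := by
        rw [Finset.card_product, Finset.card_range]
      rw [h2] at hpop
      exact_mod_cast hpop
    have h2 : (n1 : ℝ) ≤ (K : ℝ) ^ δ := Nat.floor_le (by positivity)
    have h3 : (n1 : ℝ) * n1 ≤ (K : ℝ) ^ (δ + δ) := by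
      rw [Real.rpow_add hK0]
      exact mul_le_mul h2 h2 (Nat.cast_nonneg _) (by positivity)
    have h4 := Dl_facts hPar hK1 hC1 (c := 2) (s := δ + δ) (by rw [hCdef]; linarith)
      (by norm_num) (by nlinarith)
    have h5 : (K : ℝ) ^ (δ + δ) ≤ (K : ℝ) ^ (δ + δ) * n := le_mul_of_one_le_right
      (by positivity) hn1
    have h6 : 2 * ((n1 : ℝ) * n1) ≤ D ^ (c0 + 6) := by linarith
    have h7 : (0 : ℝ) ≤ Q₁.card := Nat.cast_nonneg _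
    calc (Q.card : ℝ) ≤ 2 * Qn.card := by linarith
      _ ≤ 2 * (((n1 : ℝ) * n1) * Q₁.card) := by linarith
      _ = (2 * ((n1 : ℝ) * n1)) * Q₁.card := by ring
      _ ≤ D ^ (c0 + 6) * Q₁.card := mul_le_mul_of_nonneg_right h6 h7
  · intro i W hW
    exact ((hY i).2 a' b').2.1 W (hWfW i W hW)
  · intro q hq
    have h1 := (((hY (q.2.1, q.2.2.1)).2 a' b').2.2.1 _ (hQ₁Y q hq)).1
    rw [hWf1 _ (hTi q hq), hk]
    exact_mod_cast h1
  · intro q hq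
    have h1 := (((hY (q.2.1, q.2.2.1)).2 a' b').2.2.1 _ (hQ₁Y q hq)).2.1
    have h2 := (((hY (q.2.1, q.2.2.1)).2 a' b').2.2.1 _ (hQ₁Y q hq)).2.2.1
    rw [hWf1 _ (hTi q hq)]
    have h3 : (((Wf (q.2.1, q.2.2.1) a' b').filter
        fun W => near ((K : ℝ) ^ 2) δ W q.2.2.2).card : ℝ) ≤ 2 ^ (b' + 1) := by
      exact_mod_cast h1
    refine h3.trans ?_
    have h4 : (K : ℝ) ^ (1 + c0 * δ) = K * (K : ℝ) ^ (c0 * δ) := by
      rw [Real.rpow_add hK0, Real.rpow_one]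
    rw [h4] at h2
    calc (2 : ℝ) ^ (b' + 1) = 2 * 2 ^ b' := by ring
      _ ≤ 2 * (Cn * n * (K * (K : ℝ) ^ (c0 * δ))) := by linarith
      _ = (Cn * ((K : ℝ) ^ (c0 * δ) * n) * 2) * K := by ring
      _ ≤ D * K := mul_le_mul_of_nonneg_right hDCn hK0.le
      _ ≤ D ^ (c0 + 6) * K := mul_le_mul_of_nonneg_right hDD hK0.le
  · intro q hq W hW hnear
    exact (((hY (q.2.1, q.2.2.1)).2 a' b').2.2.1 _ (hQ₁Y q hq)).2.2.2 W
      (hWfW _ W hW) hnear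
  · intro p hp
    refine rd_sum hPT hCp hS hX hQ₁Q (Y := fun i => Y i a' b') (c0 := c0) (δ := δ) (Cn := Cn)
      ?_ hQ₁Y ha0 hk0 ?_ ?_
    · intro i z hz
      exact hPnP (mem_Xi.1 (((hY i).2 a' b').1 hz))
    · intro i hi
      rw [hWf1 i hi]
      exact ((hY i).2 a' b').2.2.2 p hp
    · have h1 := Dl_facts hPar hK1 hC1 (c := Cp * Cn) (s := c0 * δ) (by rw [hCdef]; linarith)
        (by positivity) (by nlinarith)
      have h2 : Cp * (Cn * (K : ℝ) ^ (c0 * δ)) ≤ D := by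
        refine le_trans ?_ h1
        have h3 : 0 ≤ Cp * Cn * (K : ℝ) ^ (c0 * δ) := by positivity
        calc Cp * (Cn * (K : ℝ) ^ (c0 * δ)) = Cp * Cn * (K : ℝ) ^ (c0 * δ) := by ring
          _ ≤ Cp * Cn * (K : ℝ) ^ (c0 * δ) * n := le_mul_of_one_le_right h3 hn1
          _ = Cp * Cn * ((K : ℝ) ^ (c0 * δ) * n) := by ring
      have h4 : D ^ 5 ≤ D ^ (c0 + 6) := by
        rw [← Real.rpow_natCast]
        refine Real.rpow_le_rpow_of_exponent_le hD1 ?_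
        norm_num
        linarith
      calc Cp * D ^ 4 * (Cn * (K : ℝ) ^ (c0 * δ)) = D ^ 4 * (Cp * (Cn * (K : ℝ) ^ (c0 * δ))) := by
            ring
        _ ≤ D ^ 4 * D := mul_le_mul_of_nonneg_left h2 (by positivity)
        _ = D ^ 5 := by ring
        _ ≤ D ^ (c0 + 6) := h4

end Pool.Agent.H17.D3
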