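import Pool.Agent.H81.D3.Targets

/-!
MP_ee74d2_an, dimension 3: the node data of a step, first part: counting of incidences, the broad
planks.
-/

set_option autoImplicit false

namespace Pool.Agent.H17.D3

open MeasureTheory Set Pool.Agent.H83.G Pool.Agent.H81.D3
open Pool.Agent.H82.G4 (aw uk)
open Pool.Agent.H22.G4 (nv Ind)
open scoped ENNReal NNReal RealInnerProductSpace

/-- the counting constant of the second and third input -/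
def CntP (Cp : ℝ) : Prop :=
  ∀ (D : ℝ) (w : ℕ) (κ : Fin 2 → ℤ) (x : Z 2) (Y : Finset (Z 2)), 1 ≤ D → 1 ≤ w →
    κ ∈ Ks 2 (w : ℝ)⁻¹ → Sep Y → (∀ z ∈ Y, ‖Lc w κ z - x‖ ≤ D) →
    (Y.card : ℝ) ≤ Cp * D ^ 4 * (w : ℝ) ^ 4

theorem Sep_sub {X Y : Finset (Z 2)} (h : Sep X) (hY : ∀ z ∈ Y, z ∈ X) : Sep Y :=
  fun z hz z' hz' hne => h z (hY z hz) z' (hY z' hz') hne

open scoped Classical in
/-- the incidences of one plank -/
theorem fiber_le {Cp : ℝ} (hPT : CntP Cp) {β : E 2 → ℂ} {G : Z 2 → ℂ} {e H₀ D H : ℝ}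
    {X : Finset (Z 2)} {w : ℕ} {P : Finset Pq} {Q : Finset (Z 2 × Pq)}
    (hS : St β G e H₀ D X w H P Q) (hX : Sep X) {p : Pq} (hp : p ∈ P) :
    ((Q.filter fun q => q.2 = p).card : ℝ) ≤ Cp * D ^ 4 * (w : ℝ) ^ 4 := by
  have h1 : ((Q.filter fun q => q.2 = p).image Prod.fst).card =
      (Q.filter fun q => q.2 = p).card := by
    refine Finset.card_image_of_injOn ?_
    intro q hq q' hq' h
    have e1 : q.2 = p := (Finset.mem_filter.1 hq).2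
    have e2 : q'.2 = p := (Finset.mem_filter.1 hq').2
    exact Prod.ext h (e1.trans e2.symm)
  rw [← h1]
  refine hPT D w p.2.1 p.2.2 _ hS.D1 hS.w1 (hS.pk p hp).1 ?_ ?_
  · refine Sep_sub hX fun z hz => ?_
    obtain ⟨q, hq, rfl⟩ := Finset.mem_image.1 hz
    exact (hS.rel q (Finset.mem_filter.1 hq).1).1
  · intro z hz
    obtain ⟨q, hq, rfl⟩ := Finset.mem_image.1 hz
    obtain ⟨hq1, hq2⟩ := Finset.mem_filter.1 hq
    have h2 := (hS.rel q hq1).2.2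
    rw [hq2] at h2
    exact h2

open scoped Classical in
/-- the incidences of some planks -/
theorem inc_le {Cp : ℝ} (hPT : CntP Cp) {β : E 2 → ℂ} {G : Z 2 → ℂ} {e H₀ D H : ℝ}
    {X : Finset (Z 2)} {w : ℕ} {P : Finset Pq} {Q : Finset (Z 2 × Pq)}
    (hS : St β G e H₀ D X w H P Q) (hX : Sep X) {S : Finset Pq} (hSP : S ⊆ P)
    {Q' : Finset (Z 2 × Pq)} (hQ' : ∀ q ∈ Q', q ∈ Q ∧ q.2 ∈ S) :
    (Q'.card : ℝ) ≤ S.card * (Cp * D ^ 4 * (w : ℝ) ^ 4) := by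
  rw [Finset.card_eq_sum_card_fiberwise (f := fun q : Z 2 × Pq => q.2) (t := S)
    (fun q hq => (hQ' q hq).2)]
  push_cast
  calc ∑ p ∈ S, ((Q'.filter fun q => q.2 = p).card : ℝ)
      ≤ ∑ p ∈ S, Cp * D ^ 4 * (w : ℝ) ^ 4 := by
        refine Finset.sum_le_sum fun p hp => ?_
        refine le_trans ?_ (fiber_le hPT hS hX (hSP hp))
        have h1 : (Q'.filter fun q => q.2 = p) ⊆ Q.filter fun q => q.2 = p := by
          intro q hq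
          obtain ⟨a, b⟩ := Finset.mem_filter.1 hq
          exact Finset.mem_filter.2 ⟨(hQ' q a).1, b⟩
        exact_mod_cast Finset.card_le_card h1
    _ = S.card * (Cp * D ^ 4 * (w : ℝ) ^ 4) := by
        rw [Finset.sum_const, nsmul_eq_mul]

/-- elementary facts on the parameters -/
theorem par_facts {L N₁ : ℕ} {β : E 2 → ℂ} {C₀ C δ M cb₀ C₁ ε δ₁ Cb R A D H : ℝ} {w K n : ℕ}
    (hP : Par L N₁ β C₀ C δ M cb₀ C₁ ε δ₁ Cb R A D H w K n) (hδ : 0 < δ) (hd : δ ≤ 1 / 100)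
    (hC : 1 ≤ C) : 1 ≤ (K : ℝ) ∧ C ≤ K := by
  have h1 : (1 : ℝ) ≤ (K : ℝ) ^ δ := hC.trans hP.KC
  have hK : 1 ≤ K := by
    by_contra h
    have h2 : K = 0 := by omega
    rw [h2, Nat.cast_zero, Real.zero_rpow hδ.ne'] at h1
    linarith
  have hK1 : (1 : ℝ) ≤ K := by exact_mod_cast hK
  refine ⟨hK1, hP.KC.trans ?_⟩
  calc (K : ℝ) ^ δ ≤ (K : ℝ) ^ (1 : ℝ) := Real.rpow_le_rpow_of_exponent_le hK1 (by linarith)
    _ = K := Real.rpow_one _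

theorem Dl_facts {L N₁ : ℕ} {β : E 2 → ℂ} {C₀ C δ M cb₀ C₁ ε δ₁ Cb R A D H : ℝ} {w K n : ℕ}
    (hP : Par L N₁ β C₀ C δ M cb₀ C₁ ε δ₁ Cb R A D H w K n) (hK : 1 ≤ (K : ℝ)) (hC : 1 ≤ C)
    {c s : ℝ} (hc : c ≤ C) (hc0 : 0 ≤ c) (hs : s ≤ C₀ * δ) :
    c * ((K : ℝ) ^ s * n) ≤ D := by
  have h1 : 1 ≤ R ^ ε := Real.one_le_rpow hP.R1 hP.e0.le
  have h2 : (K : ℝ) ^ s ≤ (K : ℝ) ^ (C₀ * δ) := Real.rpow_le_rpow_of_exponent_le hK hs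
  have h3 : (0 : ℝ) ≤ n := Nat.cast_nonneg n
  have h4 : 0 ≤ (K : ℝ) ^ s := by positivity
  have h5 : c ≤ C * Cb * R ^ ε := by
    calc c ≤ C := hc
      _ = C * 1 * 1 := by ring
      _ ≤ C * Cb * R ^ ε := by
          refine mul_le_mul (mul_le_mul_of_nonneg_left hP.Cb1 (by linarith)) h1 zero_le_one ?_
          exact mul_nonneg (by linarith) (by linarith [hP.Cb1])
  calc c * ((K : ℝ) ^ s * n) ≤ (C * Cb * R ^ ε) * ((K : ℝ) ^ (C₀ * δ) * n) :=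
        mul_le_mul h5 (mul_le_mul_of_nonneg_right h2 h3) (mul_nonneg h4 h3) (hc0.trans h5)
    _ = C * Cb * R ^ ε * (K : ℝ) ^ (C₀ * δ) * n := by ring
    _ ≤ D := hP.Dl

/-- the input for broad planks -/
def GsaP (L : ℕ) (β : E 2 → ℂ) (Ca : ℝ) : Prop :=
  ∀ (N₁ : ℕ) (cb₀ C₁ ε δ₁ Cb R A D H K : ℝ) (w n : ℕ) (G : Z 2 → ℂ) (P : Finset Pq),
  LemN L β N₁ cb₀ C₁ ε δ₁ Cb → 0 < ε → 0 < δ₁ → 1 ≤ Cb → 1 ≤ R → 0 < A → 0 < H → 1 ≤ D →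
  1 ≤ w → (w : ℝ) ^ 2 ≤ R → Cb ≤ K → K ^ C₁ ≤ A * R / ((w : ℝ) ^ 2 * H) → R ^ δ₁ ≤ n →
  Cls L (1 / 4) R A G → PSep P → PTag D P →
  (∀ p ∈ P, p.2.1 ∈ Ks 2 (w : ℝ)⁻¹ ∧ H ≤ ‖TF (Gc β w G p.2.1) p.2.2‖ ∧
    ∀ V : Fin n → Z 2, ¬ Nar β N₁ K (K ^ (-100 : ℝ) * H) n (Gc β w G p.2.1) p.2.2 V) →
  (P.card : ℝ) * (w : ℝ) ^ 4 * H ^ (10 / 3 : ℝ) * (w : ℝ) ^ (2 / 3 : ℝ) ≤
    Ca * D * Cb * R ^ ε * (A * R / ((w : ℝ) ^ 2 * H)) ^ (-cb₀) * En43 A R G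

theorem PTag_sub {D : ℝ} {P S : Finset Pq} (h : PTag D P) (hS : S ⊆ P) : PTag D S := by
  classical
  intro κ
  refine le_trans ?_ (h κ)
  exact_mod_cast Finset.card_le_card (Finset.image_subset_image (Finset.filter_subset_filter _ hS))

theorem PSep_sub {P S : Finset Pq} (h : PSep P) (hS : S ⊆ P) : PSep S :=
  fun p hp p' hp' => h p (hS hp) p' (hS hp')

/-- the broad planks have at most half of the incidences -/
theorem broad_le {L N₁ : ℕ} {β : E 2 → ℂ} {C₀ C δ M cb₀ C₁ ε δ₁ Cb R A D H H₀ Cp Ca : ℝ}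
    {w K n : ℕ} (hPar : Par L N₁ β C₀ C δ M cb₀ C₁ ε δ₁ Cb R A D H w K n) (hPT : CntP Cp)
    (hCp : 1 ≤ Cp) (hCa : 1 ≤ Ca) (hGS : GsaP L β Ca) (hK1 : 1 ≤ (K : ℝ))
    (hC : 2 * (Cp * Ca) ≤ C) (hC₀ : 6 ≤ C₀) {G : Z 2 → ℂ} {X : Finset (Z 2)}
    {P : Finset Pq} {Q : Finset (Z 2 × Pq)} (hcls : Cls L (1 / 4) R A G) (hX : Sep X)
    (hS : St β G (En43 A R G) H₀ D X w H P Q) {S : Finset Pq} (hSP : S ⊆ P)
    (hbr : ∀ p ∈ S, ∀ V : Fin n → Z 2,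
      ¬ Nar β N₁ K ((K : ℝ) ^ (-100 : ℝ) * H) n (Gc β w G p.2.1) p.2.2 V)
    {Q' : Finset (Z 2 × Pq)} (hQ' : ∀ q ∈ Q', q ∈ Q ∧ q.2 ∈ S) :
    2 * (Q'.card : ℝ) ≤ Q.card := by
  have hw1 : (1 : ℝ) ≤ w := by exact_mod_cast hS.w1
  have hw0 : (0 : ℝ) < w := by linarith
  have hH : 0 < H := hS.H0
  have hD1 : 1 ≤ D := hS.D1
  have hR1 := hPar.R1
  have hA := hPar.A0
  have hC1 : 1 ≤ C := by nlinarith
  have hwR : (w : ℝ) ^ 2 ≤ R := by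
    refine le_trans ?_ hPar.wK
    rw [mul_pow]
    have h1 : (1 : ℝ) ≤ (K : ℝ) ^ 2 := one_le_pow₀ hK1
    nlinarith [sq_nonneg (w : ℝ)]
  have hlo : (K : ℝ) ^ C₁ ≤ A * R / ((w : ℝ) ^ 2 * H) := by
    rw [le_div_iff₀ (by positivity)]
    refine le_trans ?_ hPar.lo
    refine mul_le_mul_of_nonneg_left ?_ (by positivity)
    have h1 : 0 ≤ (w : ℝ) ^ 2 * H := by positivity
    nlinarith
  have h1 := hGS N₁ cb₀ C₁ ε δ₁ Cb R A D H K w n G S hPar.hL hPar.e0 hPar.d1 hPar.Cb1 hR1 hA hH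
    hD1 hS.w1 hwR hPar.KCb hlo hPar.nd hcls (PSep_sub hS.sep hSP) (PTag_sub hS.tg hSP)
    (fun p hp => ⟨(hS.pk p (hSP hp)).1, (hS.pk p (hSP hp)).2, hbr p hp⟩)
  have h2 := inc_le hPT hS hX hSP hQ'
  have h3 := hS.low
  have h4 := hPar.br
  set x : ℝ := (A * R / ((w : ℝ) ^ 2 * H)) ^ (-cb₀) with hx
  set B : ℝ := R ^ ε with hB
  set EE : ℝ := En43 A R G with hEE
  have hx0 : 0 ≤ x := by positivity
  have hB0 : 0 ≤ B := by positivity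
  have hCb := hPar.Cb1
  have hh : 0 < H ^ (10 / 3 : ℝ) * (w : ℝ) ^ (2 / 3 : ℝ) := by positivity
  set h : ℝ := H ^ (10 / 3 : ℝ) * (w : ℝ) ^ (2 / 3 : ℝ) with hhdef
  have hD6 : D ^ 6 ≤ D ^ C₀ := by
    rw [← Real.rpow_natCast]
    refine Real.rpow_le_rpow_of_exponent_le hD1 ?_
    norm_num
    exact hC₀
  have h5 : 2 * (Cp * Ca * Cb * D ^ 6 * B * x) ≤ 1 := by
    refine le_trans ?_ h4
    have e1 : 2 * (Cp * Ca * Cb * D ^ 6 * B * x) = (2 * (Cp * Ca)) * (Cb * (D ^ 6 * (B * x))) := by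
      ring
    have e2 : C * Cb * D ^ C₀ * B * x = C * (Cb * (D ^ C₀ * (B * x))) := by ring
    rw [e1, e2]
    have f1 : 0 ≤ B * x := mul_nonneg hB0 hx0
    have f2 : D ^ 6 * (B * x) ≤ D ^ C₀ * (B * x) := mul_le_mul_of_nonneg_right hD6 f1
    have f3 : 0 ≤ D ^ 6 * (B * x) := by positivity
    refine mul_le_mul hC (mul_le_mul_of_nonneg_left f2 (by linarith)) ?_ (by linarith)
    exact mul_nonneg (by linarith) f3
  have hQ0 : (0 : ℝ) ≤ Q.card := Nat.cast_nonneg _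
  have h6 : (Q'.card : ℝ) * h ≤ (Cp * Ca * Cb * D ^ 6 * B * x) * (Q.card * h) := by
    calc (Q'.card : ℝ) * h ≤ (S.card * (Cp * D ^ 4 * (w : ℝ) ^ 4)) * h :=
          mul_le_mul_of_nonneg_right h2 hh.le
      _ = (Cp * D ^ 4) * ((S.card : ℝ) * (w : ℝ) ^ 4 * H ^ (10 / 3 : ℝ) *
            (w : ℝ) ^ (2 / 3 : ℝ)) := by rw [hhdef]; ring
      _ ≤ (Cp * D ^ 4) * (Ca * D * Cb * B * x * EE) :=
          mul_le_mul_of_nonneg_left h1 (by positivity)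
      _ = (Cp * D ^ 4 * (Ca * D * Cb * B * x)) * EE := by ring
      _ ≤ (Cp * D ^ 4 * (Ca * D * Cb * B * x)) *
            (D * (Q.card * H ^ (10 / 3 : ℝ) * (w : ℝ) ^ (2 / 3 : ℝ))) := by
          refine mul_le_mul_of_nonneg_left h3 ?_
          have : 0 ≤ Cb := by linarith
          positivity
      _ = (Cp * Ca * Cb * D ^ 6 * B * x) * (Q.card * h) := by rw [hhdef]; ring
  have h7 : (2 * (Q'.card : ℝ)) * h ≤ Q.card * h := by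
    have f4 : 0 ≤ (Q.card : ℝ) * h := by positivity
    calc (2 * (Q'.card : ℝ)) * h = 2 * ((Q'.card : ℝ) * h) := by ring
      _ ≤ 2 * ((Cp * Ca * Cb * D ^ 6 * B * x) * (Q.card * h)) := by linarith
      _ = (2 * (Cp * Ca * Cb * D ^ 6 * B * x)) * (Q.card * h) := by ring
      _ ≤ 1 * (Q.card * h) := mul_le_mul_of_nonneg_right h5 f4
      _ = Q.card * h := one_mul _
  exact le_of_mul_le_mul_right h7 hh

end Pool.Agent.H17.D3
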