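import Pool.Agent.H17.D3.GSNa

/-!
MP_ee74d2_an, dimension 3: the node data of a step, second part: the nodes.
-/

set_option autoImplicit false

namespace Pool.Agent.H17.D3

open MeasureTheory Set Pool.Agent.H83.G Pool.Agent.H81.D3
open Pool.Agent.H82.G4 (aw uk)
open Pool.Agent.H22.G4 (nv Ind)
open scoped ENNReal NNReal RealInnerProductSpace

open scoped Classical in
/-- the conclusion for one node -/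
def NodeC (N : ℕ) (β : E 2 → ℂ) (δ c0 Cn H : ℝ) (K n : ℕ) (G : Z 2 → ℂ) (X : Finset (Z 2))
    (V : Z 2 → Fin n → Z 2) (Y : ℕ → ℕ → Finset (Z 2)) (Wf : ℕ → ℕ → Finset (Pk 2)) : Prop :=
  (∀ z ∈ X, ∃ i < ⌊(K : ℝ) ^ δ⌋₊, ∃ j < ⌊(K : ℝ) ^ δ⌋₊, z ∈ Y i j) ∧ ∀ i j, Y i j ⊆ X ∧
  (∀ W ∈ Wf i j, W.1 ∈ Ks 2 (K : ℝ)⁻¹ ∧
    2 ^ i * ((K : ℝ) ^ (-50 : ℝ) * H) ≤ al N β ((K : ℝ) ^ 2) δ G W) ∧
  (∀ z ∈ Y i j, 2 ^ j ≤ ((Wf i j).filter fun W => near ((K : ℝ) ^ 2) δ W z).card ∧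
    ((Wf i j).filter fun W => near ((K : ℝ) ^ 2) δ W z).card ≤ 2 ^ (j + 1) ∧
    (2 : ℝ) ^ j ≤ Cn * n * (K : ℝ) ^ (1 + c0 * δ) ∧
    ∀ W ∈ Wf i j, near ((K : ℝ) ^ 2) δ W z →
      ∃ j', ∃ η ∈ Cz (V z j'), ‖ctr (K : ℝ)⁻¹ W.1 - η‖ ≤ 3 / K) ∧
  ∀ P : ℝ, P = 2 ∨ P = 7 / 2 → ((Y i j).card : ℝ) * H ^ P ≤
    Cn * (K : ℝ) ^ (c0 * δ) * ((2 : ℝ) ^ j) ^ (P / 2 - 1) *
      (2 ^ i * ((K : ℝ) ^ (-50 : ℝ) * H)) ^ P * (Wf i j).card * (K : ℝ) ^ 4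

/-- the input for one node -/
def NstP (L N₁ N : ℕ) (β : E 2 → ℂ) (δ M c0 Cn : ℝ) : Prop :=
  ∀ (R A H : ℝ) (K n : ℕ) (G : Z 2 → ℂ) (X : Finset (Z 2))
  (V : Z 2 → Fin n → Z 2), 1 ≤ R → Cn ≤ (K : ℝ) ^ δ → (K : ℝ) ^ 2 ≤ R → 0 < A → 0 < H →
  A * R ≤ (K : ℝ) ^ M * H → 1 ≤ n → Cls L (1 / 4) R A G → Sep X → (∀ z ∈ X, H ≤ ‖TF G z‖) →
  (∀ z ∈ X, Nar β N₁ K ((K : ℝ) ^ (-100 : ℝ) * H) n G z (V z)) →
  ∃ (Y : ℕ → ℕ → Finset (Z 2)) (Wf : ℕ → ℕ → Finset (Pk 2)),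
    NodeC N β δ c0 Cn H K n G X V Y Wf

/-- the input for the functions of the caps -/
def RseP (L : ℕ) (β : E 2 → ℂ) (Cr : ℝ) : Prop :=
  ∀ (κ R A s : ℝ) (η : E 2) (G : Z 2 → ℂ), 0 ≤ κ → κ ≤ 1 / 2 → 0 < A → 0 < s → s ≤ 1 →
  1 ≤ R * s ^ 2 → Cls L κ R A G → Cls L κ (R * s ^ 2) (Cr * A) (RS β η s G)

open scoped Classical in
/-- the points of the node `i` -/
noncomputable def Xi (S : Finset Pq) (i : Tq) : Finset (Z 2) :=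
  (S.filter fun p => (p.1, p.2.1) = i).image fun p => p.2.2

theorem mem_Xi {S : Finset Pq} {i : Tq} {z : Z 2} : z ∈ Xi S i ↔ (i.1, i.2, z) ∈ S := by
  classical
  unfold Xi
  rw [Finset.mem_image]
  constructor
  · rintro ⟨p, hp, rfl⟩
    obtain ⟨h1, h2⟩ := Finset.mem_filter.1 hp
    rw [← h2]
    exact h1
  · intro h
    exact ⟨(i.1, i.2, z), Finset.mem_filter.2 ⟨h, rfl⟩, rfl⟩

theorem node {L N₁ N : ℕ} {β : E 2 → ℂ}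
    {C₀ C δ M cb₀ C₁ ε δ₁ Cb R A D H H₀ c0 Cn Cr : ℝ} {w K n : ℕ}
    (hPar : Par L N₁ β C₀ C δ M cb₀ C₁ ε δ₁ Cb R A D H w K n)
    (hN : NstP L N₁ N β δ (M + 1) c0 Cn) (hR : RseP L β Cr) (hK1 : 1 ≤ (K : ℝ))
    (hCn : Cn ≤ C) (hCr : Cr ≤ K) (hCr1 : 1 ≤ Cr) {G : Z 2 → ℂ} {X : Finset (Z 2)}
    {P : Finset Pq} {Q : Finset (Z 2 × Pq)} (hcls : Cls L (1 / 4) R A G)
    (hS : St β G (En43 A R G) H₀ D X w H P Q) {S : Finset Pq} (hSP : S ⊆ P)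
    {V : Pq → Fin n → Z 2}
    (hV : ∀ p ∈ S, Nar β N₁ K ((K : ℝ) ^ (-100 : ℝ) * H) n (Gc β w G p.2.1) p.2.2 (V p))
    (i : Tq) :
    ∃ (Y : ℕ → ℕ → Finset (Z 2)) (Wf : ℕ → ℕ → Finset (Pk 2)),
      NodeC N β δ c0 Cn H K n (Gc β w G i.2) (Xi S i) (fun z => V (i.1, i.2, z)) Y Wf := by
  have hw1 : (1 : ℝ) ≤ w := by exact_mod_cast hS.w1
  have hw0 : (0 : ℝ) < w := by linarith
  have hH : 0 < H := hS.H0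
  have hR1 := hPar.R1
  have hA := hPar.A0
  have hwK := hPar.wK
  rw [mul_pow] at hwK
  have hw2 : (0 : ℝ) < (w : ℝ) ^ 2 := by positivity
  have hs2 : R * ((w : ℝ)⁻¹) ^ 2 = R / (w : ℝ) ^ 2 := by rw [inv_pow, div_eq_mul_inv]
  have hKR : (K : ℝ) ^ 2 ≤ R * ((w : ℝ)⁻¹) ^ 2 := by
    rw [hs2, le_div_iff₀ hw2]
    linarith
  have h1R : 1 ≤ R * ((w : ℝ)⁻¹) ^ 2 := (one_le_pow₀ hK1).trans hKR
  refine hN (R * ((w : ℝ)⁻¹) ^ 2) (Cr * A) H K n (Gc β w G i.2) (Xi S i)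
    (fun z => V (i.1, i.2, z)) h1R (hCn.trans hPar.KC) hKR (by positivity) hH ?_ hPar.n1 ?_ ?_ ?_ ?_
  · have h1 : A * R / (w : ℝ) ^ 2 ≤ (K : ℝ) ^ M * H := by
      rw [div_le_iff₀ hw2]
      calc A * R ≤ (K : ℝ) ^ M * ((w : ℝ) ^ 2 * H) := hPar.up
        _ = (K : ℝ) ^ M * H * (w : ℝ) ^ 2 := by ring
    have h2 : (0 : ℝ) ≤ (K : ℝ) ^ M * H := by positivity
    calc Cr * A * (R * ((w : ℝ)⁻¹) ^ 2) = Cr * (A * R / (w : ℝ) ^ 2) := by rw [hs2]; ring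
      _ ≤ Cr * ((K : ℝ) ^ M * H) := mul_le_mul_of_nonneg_left h1 (by linarith)
      _ ≤ K * ((K : ℝ) ^ M * H) := mul_le_mul_of_nonneg_right hCr h2
      _ = (K : ℝ) ^ (M + 1) * H := by
          rw [Real.rpow_add_one (by linarith)]
          ring
  · refine hR (1 / 4) R A (w : ℝ)⁻¹ (ctr (w : ℝ)⁻¹ i.2) G (by norm_num) (by norm_num) hA
      (by positivity) (inv_le_one_of_one_le₀ hw1) h1R hcls
  · intro z hz z' hz' hne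
    have h1 := hS.sep _ (hSP (mem_Xi.1 hz)) _ (hSP (mem_Xi.1 hz'))
      (fun h => hne (congrArg (fun p : Pq => p.2.2) h)) rfl rfl
    exact h1
  · intro z hz
    exact (hS.pk (i.1, i.2, z) (hSP (mem_Xi.1 hz))).2
  · intro z hz
    exact hV (i.1, i.2, z) (mem_Xi.1 hz)

end Pool.Agent.H17.D3
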