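import Pool.Agent.H87.D3.Targets3

/-! MP_2697e3_an, dimension three: trivial bound at one scale. -/

namespace Pool.Agent.H17.D3

open MeasureTheory Metric Set Filter Topology Pool.Agent.H87.SN Pool.Agent.H87.SH Pool.Agent.H87.AX
  Pool.Agent.H87.D3
open scoped ContDiff RealInnerProductSpace ENNReal

theorem sj_pos (j : ℕ) : 0 < sj j := by
  unfold sj
  positivity

theorem sj_le {i j : ℕ} (h : i ≤ j) : sj j ≤ sj i := by
  unfold sj
  exact pow_le_pow_of_le_one (by norm_num) (by norm_num) h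

theorem GD_nonneg {m : ℕ} {Λ : ℝ} {G : V → V →L[ℝ] E m} (hG : GD Λ G) : 0 ≤ Λ := by
  have h1 := hG.den 0 1 one_pos (ball_subset_ball (by norm_num))
  have h2 : 0 ≤ (mu G).real (ball 0 1) := measureReal_nonneg
  linarith

/-- the set of large density is measurable -/
theorem meas_large {m : ℕ} {G : V → V →L[ℝ] E m} (hMUF : T_MUF)
    (hG : MemLp G 2 (volume.restrict (ball (0 : V) 2))) (c : V) (r e s : ℝ) :
    MeasurableSet {x | x ∈ ball c r ∧ e ≤ th G x s} := by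
  have h1 := (hMUF m G hG).2.2.2.2.2 s
  have h2 : Measurable fun x => th G x s := (h1.div_const s).measurable
  exact measurableSet_ball.inter (measurableSet_le measurable_const h2)

theorem one_scale (hMUF : T_MUF) (hVOL : T_VOL) (hBTF : T_BTF) {m : ℕ} {Λ e : ℝ} (he : 0 < e)
    {G : V → V →L[ℝ] E m} (hG : GD Λ G) {r s : ℝ} (hr : 0 < r) (hs : 0 < s)
    (hrs : r + 8 * s ≤ 2) (f : V → ℝ≥0∞) (hf : ∀ x ∈ ball (0 : V) r, f x ≤ ENNReal.ofReal (3 / 2)) :
    ENNReal.ofReal ((s ^ 2)⁻¹) *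
      (∫⁻ x in {x : V | x ∈ ball 0 r ∧ e ≤ th G x s}, f x * bs G x s) ≤
      ENNReal.ofReal (3 / 2 * (512 * Λ) ^ (1 / 2 : ℝ) * (16 * Λ / e)) := by
  have hΛ := GD_nonneg hG
  have hmem : MemLp G 2 (volume.restrict (ball (0 : V) 2)) := hG.memG
  have hM : (mu G).real (ball 0 (r + s)) ≤ 2 * Λ := by
    have h1 := hG.den 0 (r + s) (by linarith) (ball_subset_ball (by linarith))
    nlinarith
  have hvol := hVOL m G hmem e (2 * Λ) 0 r s he hs hr.le hM
  have hpt : ∀ x ∈ {x : V | x ∈ ball 0 r ∧ e ≤ th G x s},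
      f x * bs G x s ≤ ENNReal.ofReal (3 / 2 * (512 * Λ) ^ (1 / 2 : ℝ)) := by
    rintro x ⟨hx, -⟩
    have hb : ball x (8 * s) ⊆ ball (0 : V) 2 := by
      refine ball_subset_ball' ?_
      rw [mem_ball] at hx
      linarith
    have h1 := hBTF.2.1 m G Λ hG x s hs hb
    have h2 : bs G x s ≤ ENNReal.ofReal ((512 * Λ) ^ (1 / 2 : ℝ)) := by
      rw [← ENNReal.ofReal_rpow_of_nonneg (by positivity) (by norm_num)]
      exact ENNReal.rpow_le_rpow h1 (by norm_num)
    rw [ENNReal.ofReal_mul (by norm_num)]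
    exact mul_le_mul' (hf x hx) h2
  have hA := meas_large hMUF hmem 0 r e s
  calc ENNReal.ofReal ((s ^ 2)⁻¹) *
      (∫⁻ x in {x : V | x ∈ ball 0 r ∧ e ≤ th G x s}, f x * bs G x s)
      ≤ ENNReal.ofReal ((s ^ 2)⁻¹) *
        (∫⁻ x in {x : V | x ∈ ball 0 r ∧ e ≤ th G x s},
          ENNReal.ofReal (3 / 2 * (512 * Λ) ^ (1 / 2 : ℝ))) :=
        mul_le_mul' le_rfl (setLIntegral_mono' hA hpt)
    _ = ENNReal.ofReal ((s ^ 2)⁻¹) * (ENNReal.ofReal (3 / 2 * (512 * Λ) ^ (1 / 2 : ℝ)) *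
          volume {x : V | x ∈ ball 0 r ∧ e ≤ th G x s}) := by
        rw [setLIntegral_const]
    _ ≤ ENNReal.ofReal ((s ^ 2)⁻¹) * (ENNReal.ofReal (3 / 2 * (512 * Λ) ^ (1 / 2 : ℝ)) *
          ENNReal.ofReal (8 * (2 * Λ) / e * s ^ 2)) :=
        mul_le_mul' le_rfl (mul_le_mul' le_rfl hvol)
    _ = ENNReal.ofReal (3 / 2 * (512 * Λ) ^ (1 / 2 : ℝ) * (16 * Λ / e)) := by
        rw [← ENNReal.ofReal_mul (by positivity), ← ENNReal.ofReal_mul (by positivity)]
        congr 1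
        field_simp
        ring

theorem pf_HTR (hMUF : T_MUF) (hVOL : T_VOL) (hBTF : T_BTF) : T_HTR := by
  intro Λ e he
  refine ⟨3 / 2 * (512 * |Λ|) ^ (1 / 2 : ℝ) * (16 * |Λ| / e), by positivity, ?_⟩
  intro m G hG
  have hΛ := GD_nonneg hG
  rw [abs_of_nonneg hΛ]
  constructor
  · intro j hj
    have h1 : sj j ≤ 1 / 16 := (sj_le hj).trans (by unfold sj; norm_num)
    unfold Hj
    refine one_scale hMUF hVOL hBTF he hG (by norm_num) (sj_pos j) (by linarith) _ ?_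
    intro x _
    exact ENNReal.ofReal_le_ofReal (by linarith [norm_nonneg x])
  · intro j hj
    have h1 : sj j ≤ 1 / 32 := (sj_le hj).trans (by unfold sj; norm_num)
    have h2 := one_scale hMUF hVOL hBTF he hG (r := 7 / 4) (by norm_num) (sj_pos j) (by linarith)
      (fun _ => 1) (fun x _ => by
        rw [← ENNReal.ofReal_one]
        exact ENNReal.ofReal_le_ofReal (by norm_num))
    simpa only [one_mul] using h2

end Pool.Agent.H17.D3
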