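import Pool.Agent.H87.D3.Targets3
import Pool.Agent.H17.D3.Base

/-! MP_2697e3_an, dimension three: the neck. -/

namespace Pool.Agent.H17.D3

open MeasureTheory Metric Set Filter Topology Pool.Agent.H87.SN Pool.Agent.H87.SH Pool.Agent.H87.AX
  Pool.Agent.H87.D3
open scoped ContDiff RealInnerProductSpace ENNReal

/-- the choice of the number of halvings -/
theorem exists_K {a b c : ℝ} (ha : 0 < a) (hb : 0 < b) (hc : 0 < c) :
    ∃ K : ℕ, (1 / 2 : ℝ) ^ K ≤ a ∧ (1 / 2 : ℝ) ^ K ≤ b ∧ (1 / 2 : ℝ) ^ K ≤ c := by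
  obtain ⟨K, hK⟩ := exists_pow_lt_of_lt_one (lt_min ha (lt_min hb hc))
    (by norm_num : (1 / 2 : ℝ) < 1)
  exact ⟨K, hK.le.trans (min_le_left _ _),
    hK.le.trans ((min_le_right _ _).trans (min_le_left _ _)),
    hK.le.trans ((min_le_right _ _).trans (min_le_right _ _))⟩

theorem pf_NCK (hEPR : T_EPR) (hRAD : T_RAD) (hANN : T_ANN) : T_NCK := by
  intro m L Λ ε δ rc σ r₁ hL hΛ hε hδ hrc hσ hσ2 hr₁
  obtain ⟨e₀, he₀, hE⟩ := hEPR m L ε (δ / 8) hL hε (by linarith)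
  obtain ⟨M, C, hM, hC, hA⟩ := hANN Λ (e₀ / 16) hΛ.le (by linarith)
  have hM0 : 0 < M := by linarith
  obtain ⟨K, hK1, hK2, hK3⟩ := exists_K (a := rc / (2 * M)) (b := δ / (4 * Λ)) (c := 1 / 64)
    (by positivity) (by positivity) (by norm_num)
  set τ : ℝ := (1 / 2) ^ K with hτ
  have hτ0 : 0 < τ := by positivity
  have hrs : 0 < (r₁ * σ) ^ 2 := by positivity
  set om : ℝ := min (e₀ * rc ^ 3 * (r₁ * σ) ^ 2 / (1600 * (C + 1)))
    (δ * (r₁ * σ) ^ 2 / 200) with hom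
  have hom0 : 0 < om := by
    rw [hom]
    refine lt_min ?_ ?_ <;> positivity
  refine ⟨K, om, hom0, ?_⟩
  intro U u G hS D e x₀ hF
  have hG : MemLp G 2 (volume.restrict (ball (0 : V) 2)) := hS.gd.memG
  have hD0 : 0 < r₁ * σ := by positivity
  have hD : 0 < D := hD0.trans_le hF.D1
  have hD2 : (r₁ * σ) ^ 2 ≤ D ^ 2 := pow_le_pow_left₀ hD0.le hF.D1 2
  obtain ⟨hR1, hR2⟩ := hRAD m Λ G hS.gd σ τ om r₁ D e x₀ hΛ.le hτ0 hK3 hr₁ hσ hσ2 hF
  have hq : 100 * om / D ^ 2 ≤ 100 * om / (r₁ * σ) ^ 2 :=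
    div_le_div_of_nonneg_left (by positivity) hrs hD2
  have hq1 : 100 * om / (r₁ * σ) ^ 2 ≤ e₀ * rc ^ 3 / (16 * (C + 1)) := by
    rw [div_le_div_iff₀ hrs (by positivity)]
    have h1 : om ≤ e₀ * rc ^ 3 * (r₁ * σ) ^ 2 / (1600 * (C + 1)) := min_le_left _ _
    rw [le_div_iff₀ (by positivity)] at h1
    linarith
  have hq2 : 100 * om / (r₁ * σ) ^ 2 ≤ δ / 2 := by
    rw [div_le_iff₀ hrs]
    have h1 : om ≤ δ * (r₁ * σ) ^ 2 / 200 := min_le_right _ _
    linarith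
  have hfI : IntegrableOn (fun x => nzs (G x) + ‖G x (Pm 1 x)‖ ^ 2) (ball (0 : V) 2) :=
    (int_nzs hG).add (int_Pm hG)
  have hf0 : ∀ x, 0 ≤ nzs (G x) + ‖G x (Pm 1 x)‖ ^ 2 := fun x =>
    add_nonneg (Pool.Agent.H35.SN.nzs_nonneg _) (sq_nonneg _)
  constructor
  · intro x hx hrx
    have hx' : ‖x‖ < 5 / 8 := mem_ball_zero_iff.1 hx
    have hρ : 0 < rho x := hrc.trans_le hrx
    have hρn : rho x ≤ ‖x‖ := rho_le_norm x
    have hsub : {y : V | y ∈ ball 0 (7 / 8) ∧ rho x / M < rho y} ⊆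
        {y : V | y ∈ ball 0 (7 / 8) ∧ τ ≤ ‖y‖ ∧ τ ≤ ‖y - D • bv 2‖} := by
      rintro y ⟨hy, hy2⟩
      have h1 : τ ≤ rho y := by
        have h2 : rc / (2 * M) ≤ rho x / M := by
          rw [div_le_div_iff₀ (by positivity) hM0]
          nlinarith
        linarith
      refine ⟨hy, h1.trans (rho_le_norm y), h1.trans ?_⟩
      rw [← rho_sub_axis y D]
      exact rho_le_norm _
    have hsub2 : {y : V | y ∈ ball 0 (7 / 8) ∧ τ ≤ ‖y‖ ∧ τ ≤ ‖y - D • bv 2‖} ⊆ ball (0 : V) 2 :=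
      fun y hy => ball_subset_ball (by norm_num) hy.1
    have h1 : ∫ y in {y : V | y ∈ ball 0 (7 / 8) ∧ rho x / M < rho y},
        (nzs (G y) + ‖G y (Pm 1 y)‖ ^ 2) ≤ e₀ * rc ^ 3 / (16 * (C + 1)) := by
      refine (setIntegral_mono_set (hfI.mono_set hsub2) (Eventually.of_forall hf0)
        (HasSubset.Subset.eventuallyLE hsub)).trans ?_
      exact hR1.trans (hq.trans hq1)
    have h2 := hA m G hS.gd x hx hρ
    have h3 : C / rho x ^ 2 * ∫ y in {y : V | y ∈ ball 0 (7 / 8) ∧ rho x / M < rho y},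
        (nzs (G y) + ‖G y (Pm 1 y)‖ ^ 2) ≤ e₀ / 16 * rho x := by
      have h4 : C / rho x ^ 2 ≤ C / rc ^ 2 :=
        div_le_div_of_nonneg_left hC (by positivity) (pow_le_pow_left₀ hrc.le hrx 2)
      calc C / rho x ^ 2 * ∫ y in {y : V | y ∈ ball 0 (7 / 8) ∧ rho x / M < rho y},
          (nzs (G y) + ‖G y (Pm 1 y)‖ ^ 2)
          ≤ C / rho x ^ 2 * (e₀ * rc ^ 3 / (16 * (C + 1))) :=
            mul_le_mul_of_nonneg_left h1 (by positivity)
        _ ≤ C / rc ^ 2 * (e₀ * rc ^ 3 / (16 * (C + 1))) :=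
            mul_le_mul_of_nonneg_right h4 (by positivity)
        _ = (C / (C + 1)) * (e₀ / 16 * rc) := by
            field_simp
        _ ≤ 1 * (e₀ / 16 * rc) := by
            refine mul_le_mul_of_nonneg_right ?_ (by positivity)
            rw [div_le_one (by positivity)]
            linarith
        _ ≤ e₀ / 16 * rho x := by
            rw [one_mul]
            exact mul_le_mul_of_nonneg_left hrx (by positivity)
    have h5 : (mu G).real (ball x (rho x / 8)) ≤ e₀ * (rho x / 8) := by linarith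
    have h6 : ball x (rho x / 8) ⊆ ball (0 : V) 2 := by
      refine ball_subset_ball' ?_
      rw [dist_zero_right]
      linarith
    obtain ⟨h7, h8⟩ := hE Λ U u G hS x (rho x / 8) (by positivity) h6 h5 x
      (mem_ball_self (by positivity))
    refine ⟨h7, ?_⟩
    have hen : 0 ≤ en u x := Pool.Agent.H35.SN.nsq_nonneg _
    refine le_of_sq_le_sq ?_ hδ.le
    rw [mul_pow, Real.sq_sqrt hen]
    nlinarith
  · have h1 : ∫ x in ball (0 : V) (5 / 8), nzs (G x) ≤ ∫ x in ball (0 : V) (7 / 8), nzs (G x) := by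
      refine setIntegral_mono_set ((int_nzs hG).mono_set (ball_subset_ball (by norm_num)))
        (Eventually.of_forall fun x => Pool.Agent.H35.SN.nzs_nonneg _) ?_
      exact HasSubset.Subset.eventuallyLE (ball_subset_ball (by norm_num))
    have h2 : 2 * Λ * τ ≤ δ / 2 := by
      rw [le_div_iff₀ (by positivity)] at hK2
      linarith
    linarith

end Pool.Agent.H17.D3
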