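import Pool.Agent.H17.D3.Base

/-! MP_2697e3_an, dimension three: weighted Pohozaev inequality with a sharp error. -/

namespace Pool.Agent.H17.D3

open MeasureTheory Metric Set Filter Topology Pool.Agent.H87.SN Pool.Agent.H87.SH Pool.Agent.H87.AX
  Pool.Agent.H87.D3
open scoped ContDiff RealInnerProductSpace ENNReal

theorem amgm {A B t : ℝ} (hA : 0 ≤ A) (hB : 0 ≤ B) (h : t ^ 2 ≤ 4 * A * B) : |t| ≤ A + B := by
  refine abs_le_of_sq_le_sq ?_ (by linarith)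
  nlinarith [sq_nonneg (A - B)]

/-- the algebra of the inequality -/
theorem pw_alg {z η κ e n p j N ρ2 Z Zz a b E0 : ℝ} (hz0 : 0 ≤ z) (hz1 : z ≤ 1) (hη : 0 ≤ η)
    (hκ0 : 0 ≤ κ) (hκη : κ ≤ 3 / 2 * η) (he : ρ2 * e ^ 2 ≤ κ * η / 16) (hn : 0 ≤ n) (hp : 0 ≤ p)
    (hj : 0 ≤ j) (hN : n + p + j ≤ N) (hκN : κ * N = κ * (n + p + j)) (hρ : 0 ≤ ρ2)
    (ha : a ^ 2 ≤ n * (ρ2 * p)) (hZ : |η * Z| ≤ 8 * b * E0 * ρ2) (hZz : η * Zz ^ 2 ≤ E0 * b ^ 2)
    (hb : 0 ≤ b) (hE : 0 ≤ E0) :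
    z ^ 2 * (κ * N) ≤ 13 * (z ^ 2 * (κ * j)) +
      12 * (16 * b * E0 + 32 * E0 * b ^ 2) * (ρ2 * N) +
      12 * ((2 * (z ^ 2 * η) - (z ^ 2 * κ - 2 * z * η * Z)) * n +
        (z ^ 2 * κ - 2 * z * η * Z) * p - (z ^ 2 * κ - 2 * z * η * Z) * j -
        2 * (z ^ 2 * e + 2 * z * η * Zz) * a) := by
  have hN0 : 0 ≤ N := by linarith
  have hz2 : 0 ≤ z ^ 2 := sq_nonneg z
  -- the main cross term
  have c1 : |2 * (e * a)| ≤ η * n / 4 + κ * p / 4 := by
    refine amgm (by positivity) (by positivity) ?_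
    have h1 : e ^ 2 * a ^ 2 ≤ e ^ 2 * (n * (ρ2 * p)) := mul_le_mul_of_nonneg_left ha (sq_nonneg e)
    have h2 : (n * p) * (ρ2 * e ^ 2) ≤ (n * p) * (κ * η / 16) :=
      mul_le_mul_of_nonneg_left he (by positivity)
    calc (2 * (e * a)) ^ 2 = 4 * (e ^ 2 * a ^ 2) := by ring
      _ ≤ 4 * (e ^ 2 * (n * (ρ2 * p))) := by linarith
      _ = 4 * ((n * p) * (ρ2 * e ^ 2)) := by ring
      _ ≤ 4 * ((n * p) * (κ * η / 16)) := by linarith
      _ = 4 * (η * n / 4) * (κ * p / 4) := by ring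
  -- the first error term
  have c2 : |2 * z * (η * Z) * (n - p + j)| ≤ 16 * b * E0 * (ρ2 * N) := by
    have h1 : |n - p + j| ≤ N := abs_le.2 ⟨by linarith, by linarith⟩
    have h2 : |2 * z| ≤ 2 := by
      rw [abs_of_nonneg (by positivity)]
      linarith
    calc |2 * z * (η * Z) * (n - p + j)| = |2 * z| * |η * Z| * |n - p + j| := by
          rw [abs_mul, abs_mul]
      _ ≤ 2 * (8 * b * E0 * ρ2) * N := by
          refine mul_le_mul (mul_le_mul h2 hZ (abs_nonneg _) (by norm_num)) h1 (abs_nonneg _) ?_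
          positivity
      _ = 16 * b * E0 * (ρ2 * N) := by ring
  -- the second error term
  have c3 : |4 * z * η * Zz * a| ≤ z ^ 2 * (η * n) / 8 + 32 * E0 * b ^ 2 * (ρ2 * N) := by
    refine amgm (by positivity) (by positivity) ?_
    have h1 : a ^ 2 ≤ n * (ρ2 * N) := ha.trans (by
      refine mul_le_mul_of_nonneg_left (mul_le_mul_of_nonneg_left ?_ hρ) hn
      linarith)
    have h2 : (16 * z ^ 2 * η * (η * Zz ^ 2)) * a ^ 2 ≤
        (16 * z ^ 2 * η * (E0 * b ^ 2)) * (n * (ρ2 * N)) := by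
      refine mul_le_mul (mul_le_mul_of_nonneg_left hZz (by positivity)) h1 (sq_nonneg a) ?_
      positivity
    calc (4 * z * η * Zz * a) ^ 2 = (16 * z ^ 2 * η * (η * Zz ^ 2)) * a ^ 2 := by ring
      _ ≤ (16 * z ^ 2 * η * (E0 * b ^ 2)) * (n * (ρ2 * N)) := h2
      _ = 4 * (z ^ 2 * (η * n) / 8) * (32 * E0 * b ^ 2 * (ρ2 * N)) := by ring
  have d1 := mul_le_mul_of_nonneg_left (abs_le.1 c1).2 hz2
  have d2 := (abs_le.1 c2).1
  have d3 := (abs_le.1 c3).2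
  have d4 : 0 ≤ z ^ 2 * ((39 / 2 * η - 13 * κ) * n) :=
    mul_nonneg hz2 (mul_nonneg (by linarith) hn)
  have d5 : 0 ≤ z ^ 2 * (κ * p) := by positivity
  rw [hκN]
  nlinarith

/-- a radial function has no derivative in the orthogonal directions -/
theorem radial_fderiv {ζ : V → ℝ} (hζ : ContDiff ℝ 1 ζ)
    (hrad : ∀ x y : V, ‖x‖ = ‖y‖ → ζ x = ζ y) {x v : V} (hx : x ≠ 0) (hxv : ⟪x, v⟫ = 0) :
    fderiv ℝ ζ x v = 0 := by
  rcases eq_or_ne v 0 with rfl | hv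
  · exact map_zero _
  have hx0 : 0 < ‖x‖ := norm_pos_iff.2 hx
  have hv0 : 0 < ‖v‖ := norm_pos_iff.2 hv
  set w : V := (‖x‖ / ‖v‖) • v with hw
  have hwn : ‖w‖ = ‖x‖ := by
    rw [hw, norm_smul, Real.norm_eq_abs, abs_of_pos (by positivity)]
    field_simp
  have hxw : ⟪x, w⟫ = 0 := by rw [hw, real_inner_smul_right, hxv, mul_zero]
  have hc : HasDerivAt (fun t : ℝ => Real.cos t • x + Real.sin t • w) w 0 := by
    have h1 := ((Real.hasDerivAt_cos 0).smul_const x).add ((Real.hasDerivAt_sin 0).smul_const w)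
    have h2 : (-Real.sin 0) • x + Real.cos 0 • w = w := by simp
    rw [h2] at h1
    exact h1
  have hcn : ∀ t : ℝ, ‖Real.cos t • x + Real.sin t • w‖ = ‖x‖ := by
    intro t
    have h1 : ‖Real.cos t • x + Real.sin t • w‖ ^ 2 = ‖x‖ ^ 2 := by
      rw [norm_add_sq_real, real_inner_smul_left, real_inner_smul_right, hxw, norm_smul, norm_smul,
        hwn, Real.norm_eq_abs, Real.norm_eq_abs, mul_pow, mul_pow, sq_abs, sq_abs]
      have h2 := Real.sin_sq_add_cos_sq t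
      nlinarith
    exact (pow_left_inj₀ (norm_nonneg _) (norm_nonneg _) two_ne_zero).1 h1
  have hd : HasFDerivAt ζ (fderiv ℝ ζ x) (Real.cos 0 • x + Real.sin 0 • w) := by
    have h1 : Real.cos 0 • x + Real.sin 0 • w = x := by simp
    rw [h1]
    exact ((hζ.differentiable (by norm_num)) x).hasFDerivAt
  have h2 := hd.comp_hasDerivAt (0 : ℝ) hc
  have h3 : (ζ ∘ fun t : ℝ => Real.cos t • x + Real.sin t • w) = fun _ => ζ x := by
    funext t
    exact hrad _ _ (hcn t)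
  rw [h3] at h2
  have h4 : fderiv ℝ ζ x w = 0 := h2.unique (hasDerivAt_const (0 : ℝ) (ζ x))
  rw [hw, map_smul, smul_eq_mul] at h4
  rcases mul_eq_zero.1 h4 with h5 | h5
  · exact absurd h5 (by positivity)
  · exact h5

theorem inner_Pm (x : V) : ⟪x, Pm 1 x⟫ = rho x ^ 2 := by
  rw [rho_sq, PiLp.inner_apply, Fin.sum_univ_three]
  simp [Pm]

theorem inner_Jm (x : V) : ⟪x, Jm 1 x⟫ = 0 := by
  rw [PiLp.inner_apply, Fin.sum_univ_three]
  simp [Jm]
  ring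

section cz

variable {ζ : V → ℝ} {B : ℝ} (hz : Cz ζ B)
include hz

theorem cz_Jm (x : V) : fderiv ℝ ζ x (Jm 1 x) = 0 := by
  rcases eq_or_ne x 0 with rfl | hx
  · rw [map_zero, map_zero]
  · exact radial_fderiv hz.C1 hz.rad hx (inner_Jm x)

theorem cz_bd (x v : V) : |fderiv ℝ ζ x v| ≤ |B| * ‖v‖ := by
  refine abs_le_of_sq_le_sq ?_ (by positivity)
  have h1 := Pool.Agent.H35.SN.abs_le_real (fderiv ℝ ζ x) v
  have h2 : nsq (fderiv ℝ ζ x) ≤ B ^ 2 := hz.gr x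
  calc (fderiv ℝ ζ x v) ^ 2 ≤ ‖v‖ ^ 2 * nsq (fderiv ℝ ζ x) := h1
    _ ≤ ‖v‖ ^ 2 * B ^ 2 := mul_le_mul_of_nonneg_left h2 (by positivity)
    _ = (|B| * ‖v‖) ^ 2 := by rw [mul_pow, sq_abs]; ring

theorem cz_rad {x : V} (hx : x ≠ 0) (v : V) :
    ‖x‖ ^ 2 * fderiv ℝ ζ x v = ⟪x, v⟫ * fderiv ℝ ζ x x := by
  have h1 : ⟪x, (‖x‖ ^ 2) • v - ⟪x, v⟫ • x⟫ = 0 := by
    rw [inner_sub_right, real_inner_smul_right, real_inner_smul_right, real_inner_self_eq_norm_sq]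
    ring
  have h2 := radial_fderiv hz.C1 hz.rad hx h1
  rw [map_sub, map_smul, map_smul, smul_eq_mul, smul_eq_mul] at h2
  linarith

theorem cz_small {x : V} (hx : ‖x‖ < 1 / 8) : fderiv ℝ ζ x = 0 := by
  have h1 : ζ =ᶠ[𝓝 x] fun _ => (1 : ℝ) := by
    have h2 : ball (0 : V) (1 / 8) ∈ 𝓝 x := isOpen_ball.mem_nhds (by rwa [mem_ball_zero_iff])
    filter_upwards [h2] with y hy
    exact hz.one y (mem_ball_zero_iff.1 hy).le
  rw [h1.fderiv_eq]
  exact fderiv_const_apply (1 : ℝ)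

theorem cz_Pm {x : V} (hx : 1 / 8 ≤ ‖x‖) : |fderiv ℝ ζ x (Pm 1 x)| ≤ 8 * |B| * rho x ^ 2 := by
  have hx0 : 0 < ‖x‖ := by linarith
  have h1 := cz_rad hz (norm_pos_iff.1 hx0) (Pm 1 x)
  rw [inner_Pm] at h1
  have h2 := cz_bd hz x x
  have h3 : ‖x‖ ^ 2 * |fderiv ℝ ζ x (Pm 1 x)| = rho x ^ 2 * |fderiv ℝ ζ x x| := by
    have h4 := congrArg abs h1
    rw [abs_mul, abs_mul, abs_of_nonneg (sq_nonneg ‖x‖), abs_of_nonneg (sq_nonneg (rho x))] at h4
    exact h4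
  have h5 : ‖x‖ * (‖x‖ * |fderiv ℝ ζ x (Pm 1 x)|) ≤ ‖x‖ * (rho x ^ 2 * |B|) := by
    have h6 : rho x ^ 2 * |fderiv ℝ ζ x x| ≤ rho x ^ 2 * (|B| * ‖x‖) :=
      mul_le_mul_of_nonneg_left h2 (by positivity)
    linarith
  have h7 := le_of_mul_le_mul_left h5 hx0
  have h8 : 1 / 8 * |fderiv ℝ ζ x (Pm 1 x)| ≤ ‖x‖ * |fderiv ℝ ζ x (Pm 1 x)| :=
    mul_le_mul_of_nonneg_right hx (abs_nonneg _)
  linarith

end cz

/-- the bound of the weight -/
noncomputable def E0 : ℝ := (1 / 6400 : ℝ) ^ (-(3 / 4) : ℝ)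

theorem E0_nonneg : 0 ≤ E0 := by
  unfold E0
  positivity

theorem et_le {σ : ℝ} (x : V) (hx : 1 / 8 ≤ ‖x‖) : et σ x ≤ E0 := by
  unfold et E0
  refine Real.rpow_le_rpow_of_nonpos (by norm_num) ?_ (by norm_num)
  unfold DD
  have h1 := norm_sq3 x
  have h2 : (1 / 8 : ℝ) ^ 2 ≤ ‖x‖ ^ 2 := pow_le_pow_left₀ (by norm_num) hx 2
  nlinarith [sq_nonneg σ, sq_nonneg (x 0), sq_nonneg (x 1), sq_nonneg (x 2)]

theorem hZ_of {ζ : V → ℝ} {B σ : ℝ} (hz : Cz ζ B) (hp : ∀ x, 0 < et σ x) (x : V) :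
    |et σ x * fderiv ℝ ζ x (Pm 1 x)| ≤ 8 * |B| * E0 * rho x ^ 2 := by
  have hE := E0_nonneg
  rcases lt_or_ge ‖x‖ (1 / 8) with h | h
  · rw [cz_small hz h]
    simp only [zero_apply, mul_zero, abs_zero]
    positivity
  · rw [abs_mul, abs_of_pos (hp x)]
    calc et σ x * |fderiv ℝ ζ x (Pm 1 x)| ≤ E0 * (8 * |B| * rho x ^ 2) :=
          mul_le_mul (et_le x h) (cz_Pm hz h) (abs_nonneg _) hE
      _ = 8 * |B| * E0 * rho x ^ 2 := by ring

theorem hZz_of {ζ : V → ℝ} {B σ : ℝ} (hz : Cz ζ B) (x : V) :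
    et σ x * fderiv ℝ ζ x (bv 2) ^ 2 ≤ E0 * |B| ^ 2 := by
  have hE := E0_nonneg
  rcases lt_or_ge ‖x‖ (1 / 8) with h | h
  · rw [cz_small hz h]
    simp only [zero_apply]
    have : 0 ≤ E0 * |B| ^ 2 := by positivity
    simpa using this
  · have h1 := cz_bd hz x (bv 2)
    rw [Pool.Agent.H35.SN.norm_bv, mul_one] at h1
    refine mul_le_mul (et_le x h) ?_ (sq_nonneg _) hE
    rw [← sq_abs]
    exact pow_le_pow_left₀ (abs_nonneg _) h1 2

/-! ### The inner product -/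

section

variable {m : ℕ}

theorem app_Pm_sq (T : V →L[ℝ] E m) (x : V) :
    ‖T (Pm 1 x)‖ ^ 2 = rho x ^ 2 * ((rho x ^ 2)⁻¹ * ‖T (Pm 1 x)‖ ^ 2) := by
  rcases (Pool.Agent.H35.SN.rho_nonneg x).eq_or_lt with h | h
  · have h1 : Pm 1 x = 0 := by
      rw [← norm_eq_zero, norm_Pm, ← h]
    rw [h1, ← h]
    simp
  · have h2 : 0 < rho x ^ 2 := by positivity
    field_simp

theorem inner_sq_le (T : V →L[ℝ] E m) (x : V) :
    ⟪T (bv 2), T (Pm 1 x)⟫ ^ 2 ≤
      nzs T * (rho x ^ 2 * ((rho x ^ 2)⁻¹ * ‖T (Pm 1 x)‖ ^ 2)) := by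
  rw [← app_Pm_sq, nzs_eq, ← mul_pow]
  rw [← sq_abs]
  exact pow_le_pow_left₀ (abs_nonneg _) (abs_real_inner_le_norm _ _) 2

theorem inner_meas {G : V → V →L[ℝ] E m} {μ : Measure V} (hG : AEStronglyMeasurable G μ) :
    AEStronglyMeasurable (fun x => ⟪G x (bv 2), G x (Pm 1 x)⟫) μ := by
  have h1 : Continuous (fun p : (V →L[ℝ] E m) × V => ⟪p.1 (bv 2), p.1 p.2⟫) := by
    have ha : Continuous (fun p : (V →L[ℝ] E m) × V => p.1 (bv 2)) :=
      continuous_fst.clm_apply continuous_const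
    have hb : Continuous (fun p : (V →L[ℝ] E m) × V => p.1 p.2) :=
      continuous_fst.clm_apply continuous_snd
    exact ha.inner hb
  have h2 : AEStronglyMeasurable (fun x : V => Pm 1 x) μ := (Pm 1).continuous.aestronglyMeasurable
  have h := Continuous.comp_aestronglyMeasurable (f := fun x => (G x, Pm 1 x)) h1 (hG.prodMk h2)
  exact h

theorem nsq_ge (hLA1 : T_LA1) (T : V →L[ℝ] E m) (x : V) :
    nzs T + (rho x ^ 2)⁻¹ * ‖T (Pm 1 x)‖ ^ 2 + (rho x ^ 2)⁻¹ * ‖T (Jm 1 x)‖ ^ 2 ≤ nsq T :=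
  Pool.Agent.H35.SN.split_le hLA1 T x

theorem kap_nsq (hLA1 : T_LA1) (T : V →L[ℝ] E m) (x : V) {κ c : ℝ} (hκ : κ = c * (rho x ^ 2)) :
    κ * nsq T =
      κ * (nzs T + (rho x ^ 2)⁻¹ * ‖T (Pm 1 x)‖ ^ 2 + (rho x ^ 2)⁻¹ * ‖T (Jm 1 x)‖ ^ 2) := by
  rcases (Pool.Agent.H35.SN.rho_nonneg x).eq_or_lt with h | h
  · rw [hκ, ← h]
    ring
  · have h2 : 0 < rho x ^ 2 := by positivity
    have h1 := hLA1 1 m T x
    have h3 : nsq T =
        nzs T + (rho x ^ 2)⁻¹ * ‖T (Pm 1 x)‖ ^ 2 + (rho x ^ 2)⁻¹ * ‖T (Jm 1 x)‖ ^ 2 := by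
      have h4 : nsq T = (rho x ^ 2)⁻¹ * (rho x ^ 2 * nsq T) := by field_simp
      rw [h4, h1]
      field_simp
    rw [← h3]

end

/-- the field -/
theorem fd_field {ζ η : V → ℝ} (hζ : ContDiff ℝ 1 ζ) (hη : ContDiff ℝ 1 η) (x v : V) :
    fderiv ℝ (fun y => ζ y ^ 2 * η y) x v =
      ζ x ^ 2 * fderiv ℝ η x v + 2 * ζ x * η x * fderiv ℝ ζ x v := by
  have h1 : HasFDerivAt ζ (fderiv ℝ ζ x) x :=
    ((hζ.differentiable (by norm_num)) x).hasFDerivAt
  have h2 : HasFDerivAt η (fderiv ℝ η x) x :=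
    ((hη.differentiable (by norm_num)) x).hasFDerivAt
  have h3 := ((h1.mul h1).mul h2).fderiv
  have h4 : (fun y => ζ y ^ 2 * η y) = fun y => ζ y * ζ y * η y := by
    funext y
    ring
  rw [h4]
  have h5 := congrArg (fun T : V →L[ℝ] ℝ => T v) h3
  simp only [add_apply, smul_apply, smul_eq_mul, Pi.mul_apply] at h5
  refine h5.trans ?_
  ring

theorem bd_mul {m : ℕ} {G : V → V →L[ℝ] E m}
    (hG : MemLp G 2 (volume.restrict (ball (0 : V) 2))) {c g : V → ℝ} (hc : Continuous c)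
    (hg : AEStronglyMeasurable g (volume.restrict (ball (0 : V) 2))) {K : ℝ}
    (hK : ∀ x ∈ ball (0 : V) 2, |g x| ≤ K * nsq (G x)) :
    Integrable (fun x => c x * g x) (volume.restrict (ball (0 : V) 2)) := by
  obtain ⟨M, hM⟩ := Pool.Agent.H35.SN.bd_ball c hc
  refine Pool.Agent.H35.SN.int_of_le hG _ (M * K) (hc.aestronglyMeasurable.mul hg) ?_
  intro x hx
  rw [abs_mul]
  have h1 := hM x hx
  have h2 := hK x hx
  calc |c x| * |g x| ≤ M * (K * nsq (G x)) :=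
        mul_le_mul h1 h2 (abs_nonneg _) ((abs_nonneg _).trans h1)
    _ = M * K * nsq (G x) := by ring

theorem pf_PZ (hPID : T_PID) (hWTS : T_WTS) (hLA1 : T_LA1) : T_PZ := by
  intro ζ B hz
  have hE := E0_nonneg
  refine ⟨12 * (16 * |B| * E0 + 32 * E0 * |B| ^ 2), by positivity, ?_⟩
  intro m G hG hS σ hσ hσ2
  obtain ⟨w1, w2, w3, w4, w5, w6, w7, -⟩ := hWTS σ hσ
  have hη1 : ContDiff ℝ 1 (et σ) := w1.of_le (by exact_mod_cast le_top)
  have hfd := fun x v => fd_field hz.C1 hη1 x v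
  set f : V → ℝ := fun y => ζ y ^ 2 * et σ y with hf
  have hf1 : ContDiff ℝ 1 f := (hz.C1.pow 2).mul hη1
  have hsupp : Function.support f ⊆ closedBall (0 : V) (1 / 4) := by
    intro x hx
    by_contra h
    rw [mem_closedBall_zero_iff, not_le] at h
    refine hx ?_
    rw [hf]
    simp only
    rw [hz.zero x h.le]
    ring
  have hfc : HasCompactSupport f :=
    HasCompactSupport.of_support_subset_isCompact (isCompact_closedBall 0 (1 / 4)) hsupp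
  have hfs : tsupport f ⊆ ball 0 2 :=
    (closure_minimal hsupp isClosed_closedBall).trans (closedBall_subset_ball (by norm_num))
  have hfJ : ∀ x, fderiv ℝ f x (Jm 1 x) = 0 := by
    intro x
    rw [hfd, w4, cz_Jm hz]
    ring
  have hP := hPID m G hG hS f hf1 hfc hfs hfJ
  have hkf : ∀ x, kap f x = ζ x ^ 2 * kap (et σ) x -
      2 * ζ x * et σ x * fderiv ℝ ζ x (Pm 1 x) := by
    intro x
    unfold kap
    rw [hfd]
    ring
  have hκc : Continuous (fun x => kap (et σ) x) := by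
    unfold kap
    exact ((hη1.continuous_fderiv (by norm_num)).clm_apply (Pm 1).continuous).neg
  have hkfc : Continuous (fun x => kap f x) := by
    unfold kap
    exact ((hf1.continuous_fderiv (by norm_num)).clm_apply (Pm 1).continuous).neg
  have hζ2 : Continuous (fun x => ζ x ^ 2) := hz.C1.continuous.pow 2
  -- the measurable pieces
  have mN : AEStronglyMeasurable (fun x => nsq (G x)) (volume.restrict (ball (0 : V) 2)) :=
    Pool.Agent.H35.SN.cont_nsq.comp_aestronglyMeasurable hG.1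
  have mn : AEStronglyMeasurable (fun x => nzs (G x)) (volume.restrict (ball (0 : V) 2)) :=
    Pool.Agent.H35.SN.cont_nzs.comp_aestronglyMeasurable hG.1
  have mp : AEStronglyMeasurable (fun x => (rho x ^ 2)⁻¹ * ‖G x (Pm 1 x)‖ ^ 2)
      (volume.restrict (ball (0 : V) 2)) :=
    (Pool.Agent.H35.SN.rho_meas _).mul (Pool.Agent.H35.SN.app_meas hG.1 _ (Pm 1).continuous)
  have mj : AEStronglyMeasurable (fun x => (rho x ^ 2)⁻¹ * ‖G x (Jm 1 x)‖ ^ 2)
      (volume.restrict (ball (0 : V) 2)) :=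
    (Pool.Agent.H35.SN.rho_meas _).mul (Pool.Agent.H35.SN.app_meas hG.1 _ (Jm 1).continuous)
  have ma := inner_meas (μ := volume.restrict (ball (0 : V) 2)) hG.1
  have hN0 : ∀ x, 0 ≤ nsq (G x) := fun x => Pool.Agent.H35.SN.nsq_nonneg _
  have hn0 : ∀ x, 0 ≤ nzs (G x) := fun x => Pool.Agent.H35.SN.nzs_nonneg _
  have hp0 : ∀ x, 0 ≤ (rho x ^ 2)⁻¹ * ‖G x (Pm 1 x)‖ ^ 2 := fun x => by positivity
  have hj0 : ∀ x, 0 ≤ (rho x ^ 2)⁻¹ * ‖G x (Jm 1 x)‖ ^ 2 := fun x => by positivity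
  have hsp : ∀ x, nzs (G x) + (rho x ^ 2)⁻¹ * ‖G x (Pm 1 x)‖ ^ 2 +
      (rho x ^ 2)⁻¹ * ‖G x (Jm 1 x)‖ ^ 2 ≤ nsq (G x) := fun x => nsq_ge hLA1 (G x) x
  have bN : ∀ x ∈ ball (0 : V) 2, |nsq (G x)| ≤ 1 * nsq (G x) := fun x _ => by
    rw [abs_of_nonneg (hN0 x), one_mul]
  have bn : ∀ x ∈ ball (0 : V) 2, |nzs (G x)| ≤ 1 * nsq (G x) := fun x _ => by
    rw [abs_of_nonneg (hn0 x), one_mul]
    linarith [hp0 x, hj0 x, hsp x]
  have bp : ∀ x ∈ ball (0 : V) 2, |(rho x ^ 2)⁻¹ * ‖G x (Pm 1 x)‖ ^ 2| ≤ 1 * nsq (G x) :=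
    fun x _ => by
      rw [abs_of_nonneg (hp0 x), one_mul]
      linarith [hn0 x, hj0 x, hsp x]
  have bj : ∀ x ∈ ball (0 : V) 2, |(rho x ^ 2)⁻¹ * ‖G x (Jm 1 x)‖ ^ 2| ≤ 1 * nsq (G x) :=
    fun x _ => by
      rw [abs_of_nonneg (hj0 x), one_mul]
      linarith [hn0 x, hp0 x, hsp x]
  have ba : ∀ x ∈ ball (0 : V) 2, |⟪G x (bv 2), G x (Pm 1 x)⟫| ≤ 2 * nsq (G x) := by
    intro x hx
    refine abs_le_of_sq_le_sq ?_ (by linarith [hN0 x])
    have h1 := inner_sq_le (G x) x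
    have h2 : rho x ≤ 2 := rho_lt_two hx
    have h3 : 0 ≤ rho x := Pool.Agent.H35.SN.rho_nonneg x
    have h4 : rho x ^ 2 ≤ 4 := by nlinarith
    have h5 : nzs (G x) ≤ nsq (G x) := by linarith [hp0 x, hj0 x, hsp x]
    have h6 : (rho x ^ 2)⁻¹ * ‖G x (Pm 1 x)‖ ^ 2 ≤ nsq (G x) := by
      linarith [hn0 x, hj0 x, hsp x]
    calc ⟪G x (bv 2), G x (Pm 1 x)⟫ ^ 2
        ≤ nzs (G x) * (rho x ^ 2 * ((rho x ^ 2)⁻¹ * ‖G x (Pm 1 x)‖ ^ 2)) := h1
      _ ≤ nsq (G x) * (4 * nsq (G x)) := by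
          refine mul_le_mul h5 (mul_le_mul h4 h6 (hp0 x) (by norm_num)) ?_ (hN0 x)
          exact mul_nonneg (sq_nonneg _) (hp0 x)
      _ = (2 * nsq (G x)) ^ 2 := by ring
  -- integrability
  have iA : Integrable (fun x => ζ x ^ 2 * (kap (et σ) x * nsq (G x)))
      (volume.restrict (ball (0 : V) 2)) := by
    have h := bd_mul hG (c := fun x => ζ x ^ 2 * kap (et σ) x) (hζ2.mul hκc) mN bN
    refine h.congr (Eventually.of_forall fun x => ?_)
    simp only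
    ring
  have iD : Integrable (fun x => ζ x ^ 2 *
      (kap (et σ) x * ((rho x ^ 2)⁻¹ * ‖G x (Jm 1 x)‖ ^ 2)))
      (volume.restrict (ball (0 : V) 2)) := by
    have h := bd_mul hG (c := fun x => ζ x ^ 2 * kap (et σ) x) (hζ2.mul hκc) mj bj
    refine h.congr (Eventually.of_forall fun x => ?_)
    simp only
    ring
  have hρc : Continuous (fun x : V => rho x ^ 2) := Pool.Agent.H35.SN.cont_rho.pow 2
  have iR0 : Integrable (fun x => rho x ^ 2 * nsq (G x)) (volume.restrict (ball (0 : V) 2)) :=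
    bd_mul hG hρc mN bN
  have iR : Integrable ((ball (0 : V) (1 / 4)).indicator (fun x => rho x ^ 2 * nsq (G x)))
      (volume.restrict (ball (0 : V) 2)) := iR0.indicator measurableSet_ball
  have iI : Integrable (fun x => (2 * f x - kap f x) * nzs (G x) +
      kap f x * ((rho x ^ 2)⁻¹ * ‖G x (Pm 1 x)‖ ^ 2) -
      kap f x * ((rho x ^ 2)⁻¹ * ‖G x (Jm 1 x)‖ ^ 2) -
      2 * fderiv ℝ f x (bv 2) * ⟪G x (bv 2), G x (Pm 1 x)⟫)
      (volume.restrict (ball (0 : V) 2)) := by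
    have h1 := bd_mul hG (c := fun x => 2 * f x - kap f x)
      ((hf1.continuous.const_mul 2).sub hkfc) mn bn
    have h2 := bd_mul hG (c := fun x => kap f x) hkfc mp bp
    have h3 := bd_mul hG (c := fun x => kap f x) hkfc mj bj
    have h4 := bd_mul hG (c := fun x => 2 * fderiv ℝ f x (bv 2))
      (((hf1.continuous_fderiv (by norm_num)).clm_apply continuous_const).const_mul 2) ma ba
    exact ((h1.add h2).sub h3).sub h4
  set C : ℝ := 12 * (16 * |B| * E0 + 32 * E0 * |B| ^ 2) with hC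
  have hmono := setIntegral_mono_on iA (((iD.const_mul 13).add (iR.const_mul C)).add
    (iI.const_mul 12)) measurableSet_ball (fun x _ => by
      simp only [Pi.add_apply]
      by_cases hx4 : x ∈ ball (0 : V) (1 / 4)
      · rw [indicator_of_mem hx4]
        have hκ0 : 0 ≤ kap (et σ) x := by
          rw [w5]
          have := w2 x
          positivity
        have hkN := kap_nsq hLA1 (G x) x (κ := kap (et σ) x)
          (c := 3 / 2 * DD σ x ^ (-(7 / 4) : ℝ)) (by rw [w5]; ring)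
        have h := pw_alg (hz.bd x).1 (hz.bd x).2 (w3 x).le hκ0 (w6 x) (w7 x) (hn0 x) (hp0 x)
          (hj0 x) (hsp x) hkN (sq_nonneg (rho x)) (inner_sq_le (G x) x) (hZ_of hz w3 x)
          (hZz_of hz x) (abs_nonneg B) hE
        rw [hkf, hfd]
        rw [hC]
        exact h
      · rw [indicator_of_notMem hx4]
        have h0 : ζ x = 0 := by
          rw [mem_ball_zero_iff, not_lt] at hx4
          exact hz.zero x hx4
        rw [hkf, hfd]
        have h1 : f x = 0 := by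
          rw [hf]
          simp only
          rw [h0]
          ring
        rw [h1, h0]
        simp)
  have e1 := integral_add ((iD.const_mul 13).add (iR.const_mul C)) (iI.const_mul 12)
  have e2 := integral_add (iD.const_mul 13) (iR.const_mul C)
  rw [integral_const_mul, integral_const_mul] at e2
  rw [integral_const_mul, hP, mul_zero, add_zero] at e1
  have e3 : ∫ x in ball (0 : V) 2,
      (ball (0 : V) (1 / 4)).indicator (fun x => rho x ^ 2 * nsq (G x)) x =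
      ∫ x in ball (0 : V) (1 / 4), rho x ^ 2 * nsq (G x) := by
    rw [setIntegral_indicator measurableSet_ball,
      inter_eq_right.2 (ball_subset_ball (by norm_num))]
  rw [e3] at e2
  calc _ ≤ _ := hmono
    _ = _ := e1
    _ = _ := e2

end Pool.Agent.H17.D3
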